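import Pool.Agent.Helper28.Tg.Defs
import Pool.Graph.R_seed8.H4R2.LO.La
import Pool.Graph.R_seed8.H4R2.LO.Box

/-! # One step of the multiscale analysis: grid and deterministic part -/

set_option autoImplicit false

open scoped BigOperators

namespace Pool.Agent.Helper8.Stp

open Pool.Agent.H4R2.LO (Zd dd bx AL rs Hm Near adj)
open Pool.Agent.H4R2.LO.Em (dd_le_iff le_dd dd_comm dd_tri dd_self mem_bx card_bx)
open Pool.Agent.Helper28.Tg

variable {d : ℕ}

/-! ### the grid -/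

/-- grid point -/
def gc (g : ℕ) (m : Zd d) : Zd d := fun i => (g : ℤ) * m i

/-- index of a point -/
def gx (g : ℕ) (y : Zd d) : Zd d := fun i => y i / (g : ℤ)

/-- indices near `x` -/
noncomputable def gi (g K : ℕ) (x : Zd d) : Finset (Zd d) :=
  Fintype.piFinset fun i => Finset.Icc (x i / (g : ℤ) - K) (x i / (g : ℤ) + K)

theorem gc_near (g : ℕ) (hg : 0 < g) (y : Zd d) : dd (gc g (gx g y)) y ≤ g := by
  rw [dd_le_iff]
  intro i
  have hg' : (0 : ℤ) < g := by exact_mod_cast hg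
  have h1 := Int.mul_ediv_add_emod (y i) g
  have h2 := Int.emod_nonneg (y i) hg'.ne'
  have h3 := Int.emod_lt_of_pos (y i) hg'
  unfold gc gx
  omega

theorem gx_mem (g K : ℕ) (hg : 0 < g) (x y : Zd d) (h : dd x y ≤ g * K) :
    gx g y ∈ gi g (K + 1) x := by
  unfold gi
  rw [Fintype.mem_piFinset]
  intro i
  have hg' : (0 : ℤ) < g := by exact_mod_cast hg
  have h0 := (dd_le_iff x y _).1 h i
  have h0' : |x i - y i| ≤ (g : ℤ) * K := by
    have : ((x i - y i).natAbs : ℤ) ≤ ((g * K : ℕ) : ℤ) := by exact_mod_cast h0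
    rw [Int.natCast_natAbs] at this
    push_cast at this
    exact this
  rw [abs_le] at h0'
  rw [Finset.mem_Icc]
  unfold gx
  push_cast
  constructor
  · have h1 : x i / (g : ℤ) - K ≤ y i / (g : ℤ) := by
      rw [Int.le_ediv_iff_mul_le hg']
      have h2 := Int.ediv_mul_le (x i) hg'.ne'
      nlinarith
    omega
  · have h1 : y i / (g : ℤ) - K ≤ x i / (g : ℤ) := by
      rw [Int.le_ediv_iff_mul_le hg']
      have h2 := Int.ediv_mul_le (y i) hg'.ne'
      nlinarith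
    omega

theorem gi_dist (g K : ℕ) (hg : 0 < g) (x m : Zd d) (h : m ∈ gi g K x) :
    dd x (gc g m) ≤ g * K + g := by
  unfold gi at h
  rw [Fintype.mem_piFinset] at h
  rw [dd_le_iff]
  intro i
  have hg' : (0 : ℤ) < g := by exact_mod_cast hg
  have h0 := Finset.mem_Icc.1 (h i)
  have h1 := Int.mul_ediv_add_emod (x i) g
  have h2 := Int.emod_nonneg (x i) hg'.ne'
  have h3 := Int.emod_lt_of_pos (x i) hg'
  obtain ⟨q, hq⟩ : ∃ q, q = x i / (g : ℤ) := ⟨_, rfl⟩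
  rw [← hq] at h0 h1
  have h4 : |x i - (g : ℤ) * m i| ≤ (g : ℤ) * K + g := by
    rw [abs_le]
    constructor <;> nlinarith [h0.1, h0.2]
  have h5 : (((x i - gc g m i).natAbs : ℕ) : ℤ) ≤ ((g * K + g : ℕ) : ℤ) := by
    rw [Int.natCast_natAbs]
    push_cast
    exact h4
  exact_mod_cast h5

theorem gi_card (g K : ℕ) (x : Zd d) : (gi g K x).card = (2 * K + 1) ^ d := by
  unfold gi
  rw [Fintype.card_piFinset]
  have h : ∀ i : Fin d, (Finset.Icc (x i / (g : ℤ) - K) (x i / (g : ℤ) + K)).card = 2 * K + 1 := by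
    intro i
    rw [Int.card_Icc]
    omega
  rw [Finset.prod_congr rfl fun i _ => h i, Finset.prod_const, Finset.card_univ, Fintype.card_fin]

/-! ### the box -/

/-- the boundary term -/
noncomputable def bt (Λ : Finset (Zd d)) (ψ : Zd d → ℝ) (i : Zd d) : ℝ :=
  ∑ j : Fin d, ((if i + Pi.single j 1 ∈ Λ then 0 else ψ (i + Pi.single j 1)) +
    (if i - Pi.single j 1 ∈ Λ then 0 else ψ (i - Pi.single j 1)))

theorem sum_ite_mem' (Λ : Finset (Zd d)) (ψ : Zd d → ℝ) (z : Zd d) :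
    ∑ k : Λ, (if k.1 = z then (1 : ℝ) else 0) * ψ k.1 = if z ∈ Λ then ψ z else 0 := by
  rw [Finset.sum_coe_sort Λ (fun k => (if k = z then (1 : ℝ) else 0) * ψ k)]
  simp only [ite_mul, one_mul, zero_mul, Finset.sum_ite_eq']

theorem row (V : Zd d → ℝ) (E : ℝ) (ψ : Zd d → ℝ) (Λ : Finset (Zd d)) (i : Λ)
    (hψ : Hr V ψ i.1 = E * ψ i.1) :
    (Hm (AL Λ) 1 (rs Λ V) E).mulVec (fun k => ψ k.1) i = bt Λ ψ i.1 := by
  have h1 := hψ
  unfold Hr at h1
  have h2 : ∀ k : Λ, Hm (AL Λ) 1 (rs Λ V) E i k * ψ k.1 =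
      -∑ j : Fin d, ((if k.1 = i.1 + Pi.single j 1 then (1 : ℝ) else 0) * ψ k.1 +
        (if k.1 = i.1 - Pi.single j 1 then (1 : ℝ) else 0) * ψ k.1) +
      (if k = i then (V i.1 - E) * ψ i.1 else 0) := by
    intro k
    have h0 : Hm (AL Λ) 1 (rs Λ V) E i k =
        adj i.1 k.1 + (if i = k then V i.1 - E else 0) := by
      unfold Hm
      rw [Matrix.add_apply, Matrix.diagonal_apply, one_mul]
      rfl
    rw [h0, Pool.Agent.H4R2.LO.Gef.BX.adj_eq]
    rw [add_mul, neg_mul, Finset.sum_mul]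
    congr 1
    · congr 1
      apply Finset.sum_congr rfl
      intro j _
      rw [add_mul]
    · by_cases hk : i = k
      · subst hk
        simp
      · rw [if_neg hk, if_neg (fun h => hk h.symm)]
        simp
  unfold Matrix.mulVec dotProduct
  rw [Finset.sum_congr rfl fun k _ => h2 k, Finset.sum_add_distrib, Finset.sum_neg_distrib,
    Finset.sum_comm]
  simp only [Finset.sum_add_distrib]
  have h3 : ∑ k : Λ, (if k = i then (V i.1 - E) * ψ i.1 else 0) = (V i.1 - E) * ψ i.1 := by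
    rw [Finset.sum_ite_eq' Finset.univ i]
    simp
  rw [h3]
  simp only [sum_ite_mem']
  unfold bt
  rw [Finset.sum_add_distrib] at h1
  rw [Finset.sum_add_distrib]
  have h4 : ∀ z : Fin d → Zd d, ∑ j, (if z j ∈ Λ then 0 else ψ (z j)) =
      ∑ j, ψ (z j) - ∑ j, (if z j ∈ Λ then ψ (z j) else 0) := by
    intro z
    rw [← Finset.sum_sub_distrib]
    apply Finset.sum_congr rfl
    intro j _
    split_ifs <;> simp
  have h5 := h4 fun j => i.1 + Pi.single j 1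
  have h6 := h4 fun j => i.1 - Pi.single j 1
  erw [h5, h6]
  linear_combination h1

/-- the resonance event -/
def Res (c : Zd d) (r : ℕ) (δ : ℝ) : Set ((Zd d → ℝ) × ℝ) :=
  {p | ∃ f : bx c r → ℝ, ∑ i, ((Hm (AL (bx c r)) 1 (rs (bx c r) p.1) p.2).mulVec f i) ^ 2 <
    δ ^ 2 * ∑ i, f i ^ 2}

theorem bt_le (c : Zd d) (r : ℕ) (ψ : Zd d → ℝ) (m : ℝ) (hm : 0 ≤ m)
    (h : ∀ w, dd c w = r + 1 → |ψ w| ≤ m) (i : Zd d) (hi : dd c i ≤ r) :
    |bt (bx c r) ψ i| ≤ 2 * d * m := by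
  have key : ∀ w, dd c w ≤ r + 1 → |if w ∈ bx c r then 0 else ψ w| ≤ m := by
    intro w hw
    split_ifs with hw'
    · rw [abs_zero]; exact hm
    · apply h
      rw [mem_bx] at hw'
      omega
  unfold bt
  calc |∑ j : Fin d, ((if i + Pi.single j 1 ∈ bx c r then 0 else ψ (i + Pi.single j 1)) +
        (if i - Pi.single j 1 ∈ bx c r then 0 else ψ (i - Pi.single j 1)))|
      ≤ ∑ j : Fin d, |((if i + Pi.single j 1 ∈ bx c r then 0 else ψ (i + Pi.single j 1)) +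
        (if i - Pi.single j 1 ∈ bx c r then 0 else ψ (i - Pi.single j 1)))| :=
        Finset.abs_sum_le_sum_abs _ _
    _ ≤ ∑ j : Fin d, (m + m) := by
        apply Finset.sum_le_sum
        intro j _
        have hn := Pool.Agent.H4R2.LO.Gef.BX.dd_nb c i j
        exact (abs_add_le _ _).trans (add_le_add (key _ (by omega)) (key _ (by omega)))
    _ = 2 * d * m := by
        rw [Finset.sum_const, Finset.card_univ, Fintype.card_fin, nsmul_eq_mul]
        ring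

/-- values inside a nonresonant box are controlled by the values outside -/
theorem res_bound (V : Zd d → ℝ) (E : ℝ) (ψ : Zd d → ℝ) (c : Zd d) (r : ℕ) (δ : ℝ) (hδ : 0 < δ)
    (hres : (V, E) ∉ Res c r δ) (hψ : ∀ w, dd c w ≤ r → Hr V ψ w = E * ψ w) (m : ℝ) (hm : 0 ≤ m)
    (h : ∀ w, dd c w = r + 1 → |ψ w| ≤ m) (y : Zd d) (hy : dd c y ≤ r) :
    |ψ y| ≤ δ⁻¹ * (2 * r + 1) ^ d * (2 * d * m) := by
  have h1 : δ ^ 2 * ∑ i : bx c r, ψ i.1 ^ 2 ≤
      ∑ i, ((Hm (AL (bx c r)) 1 (rs (bx c r) V) E).mulVec (fun k => ψ k.1) i) ^ 2 := by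
    by_contra hcon
    push Not at hcon
    exact hres ⟨fun k => ψ k.1, hcon⟩
  have h2 : ∀ i : bx c r, ((Hm (AL (bx c r)) 1 (rs (bx c r) V) E).mulVec (fun k => ψ k.1) i) ^ 2 ≤
      (2 * d * m) ^ 2 := by
    intro i
    have hi := (mem_bx c i.1 r).1 i.2
    rw [row V E ψ (bx c r) i (hψ i.1 hi), ← sq_abs]
    exact pow_le_pow_left₀ (abs_nonneg _) (bt_le c r ψ m hm h i.1 hi) 2
  have h3 : ∑ i, ((Hm (AL (bx c r)) 1 (rs (bx c r) V) E).mulVec (fun k => ψ k.1) i) ^ 2 ≤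
      (2 * r + 1) ^ d * (2 * d * m) ^ 2 := by
    refine (Finset.sum_le_sum fun i _ => h2 i).trans (le_of_eq ?_)
    rw [Finset.sum_const, Finset.card_univ, Fintype.card_coe, card_bx, nsmul_eq_mul]
    push_cast
    ring
  have h4 : ψ y ^ 2 ≤ ∑ i : bx c r, ψ i.1 ^ 2 :=
    Finset.single_le_sum (f := fun i : bx c r => ψ i.1 ^ 2) (fun i _ => sq_nonneg _)
      (Finset.mem_univ (⟨y, (mem_bx c y r).2 hy⟩ : bx c r))
  have h5 : (1 : ℝ) ≤ (2 * r + 1) ^ d := by
    apply one_le_pow₀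
    have : (0 : ℝ) ≤ r := Nat.cast_nonneg r
    linarith
  have h6 : (δ * |ψ y|) ^ 2 ≤ ((2 * r + 1) ^ d * (2 * d * m)) ^ 2 := by
    have h7 : (δ * |ψ y|) ^ 2 = δ ^ 2 * ψ y ^ 2 := by rw [mul_pow, sq_abs]
    rw [h7]
    calc δ ^ 2 * ψ y ^ 2 ≤ δ ^ 2 * ∑ i : bx c r, ψ i.1 ^ 2 :=
          mul_le_mul_of_nonneg_left h4 (sq_nonneg _)
      _ ≤ (2 * r + 1) ^ d * (2 * d * m) ^ 2 := h1.trans h3
      _ ≤ ((2 * r + 1) ^ d * (2 * r + 1) ^ d) * (2 * d * m) ^ 2 := by
          apply mul_le_mul_of_nonneg_right _ (sq_nonneg _)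
          nlinarith
      _ = ((2 * r + 1) ^ d * (2 * d * m)) ^ 2 := by ring
  have h8 : δ * |ψ y| ≤ (2 * r + 1) ^ d * (2 * d * m) :=
    le_of_sq_le_sq h6 (by positivity)
  have h9 : |ψ y| = δ⁻¹ * (δ * |ψ y|) := by
    field_simp
  rw [h9, mul_assoc δ⁻¹]
  exact mul_le_mul_of_nonneg_left h8 (inv_nonneg.2 hδ.le)

/-- one step -/
theorem one (V : Zd d → ℝ) (E : ℝ) (g K : ℕ) (hg : 0 < g) (x : Zd d) (η δ ε : ℝ)
    (hη : 0 ≤ η) (hδ : 0 < δ) (bad : Zd d → Prop)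
    (hgood : ∀ c, ¬ bad c → Dc c (2 * g) η E V)
    (hpair : ∀ m ∈ gi g (K + 1) x, ∀ m' ∈ gi g (K + 1) x, 8 * g < dd (gc g m) (gc g m') →
      ¬ (bad (gc g m) ∧ bad (gc g m')))
    (hres : ∀ m ∈ gi g (K + 1) x, (V, E) ∉ Res (gc g m) (16 * g) δ)
    (hε1 : η ≤ ε) (hε2 : δ⁻¹ * (2 * (16 * g : ℕ) + 1) ^ d * (2 * d * η) ≤ ε)
    (ψ : Zd d → ℝ) (hψ : ∀ w, dd x w ≤ g * K → Hr V ψ w = E * ψ w)
    (y : Zd d) (hy : dd x y + 32 * g ≤ g * K) (M : ℝ) (hM : ∀ w, dd y w ≤ 32 * g → |ψ w| ≤ M) :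
    |ψ y| ≤ ε * M := by
  have hM0 : 0 ≤ M := (abs_nonneg _).trans (hM y (by rw [dd_self]; omega))
  -- good boxes
  have good : ∀ w, dd y w ≤ 18 * g + 1 → ¬ bad (gc g (gx g w)) → |ψ w| ≤ η * M := by
    intro w hw hb
    have h1 := gc_near g hg w
    refine hgood _ hb ψ ?_ M ?_ w (by omega)
    · intro z hz
      apply hψ
      have h2 := dd_tri x y z
      have h3 := dd_tri y w z
      have h4 := dd_tri w (gc g (gx g w)) z
      have h5 := dd_comm w (gc g (gx g w))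
      omega
    · intro z hz
      apply hM
      have h3 := dd_tri y w z
      have h4 := dd_tri w (gc g (gx g w)) z
      have h5 := dd_comm w (gc g (gx g w))
      omega
  by_cases hb : bad (gc g (gx g y))
  · have hc := gc_near g hg y
    have hmem : gx g y ∈ gi g (K + 1) x := gx_mem g K hg x y (by omega)
    have h0 := res_bound V E ψ (gc g (gx g y)) (16 * g) δ hδ (hres _ hmem) (by
      intro w hw
      apply hψ
      have h2 := dd_tri x y w
      have h3 := dd_tri y (gc g (gx g y)) w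
      have h5 := dd_comm y (gc g (gx g y))
      omega) (η * M) (mul_nonneg hη hM0) (by
      intro w hw
      have h3 := dd_tri y (gc g (gx g y)) w
      have h5 := dd_comm y (gc g (gx g y))
      have h6 := gc_near g hg w
      apply good w (by omega)
      intro hbw
      have h2 := dd_tri x y w
      have hmem' : gx g w ∈ gi g (K + 1) x := gx_mem g K hg x w (by omega)
      have h7 := dd_tri (gc g (gx g y)) (gc g (gx g w)) w
      exact hpair _ hmem _ hmem' (by omega) ⟨hb, hbw⟩) y (by omega)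
    refine h0.trans ?_
    have h1 : δ⁻¹ * (2 * (16 * g : ℕ) + 1) ^ d * (2 * d * (η * M)) =
        δ⁻¹ * (2 * (16 * g : ℕ) + 1) ^ d * (2 * d * η) * M := by ring
    rw [h1]
    exact mul_le_mul_of_nonneg_right hε2 hM0
  · exact (good y (by rw [dd_self]; omega) hb).trans (mul_le_mul_of_nonneg_right hε1 hM0)

/-- iteration -/
theorem iter (V : Zd d → ℝ) (E : ℝ) (g K : ℕ) (hg : 0 < g) (x : Zd d) (η δ ε : ℝ)
    (hη : 0 ≤ η) (hδ : 0 < δ) (bad : Zd d → Prop)
    (hgood : ∀ c, ¬ bad c → Dc c (2 * g) η E V)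
    (hpair : ∀ m ∈ gi g (K + 1) x, ∀ m' ∈ gi g (K + 1) x, 8 * g < dd (gc g m) (gc g m') →
      ¬ (bad (gc g m) ∧ bad (gc g m')))
    (hres : ∀ m ∈ gi g (K + 1) x, (V, E) ∉ Res (gc g m) (16 * g) δ)
    (hε1 : η ≤ ε) (hε2 : δ⁻¹ * (2 * (16 * g : ℕ) + 1) ^ d * (2 * d * η) ≤ ε)
    (ψ : Zd d → ℝ) (hψ : ∀ w, dd x w ≤ g * K → Hr V ψ w = E * ψ w) (b : ℝ)
    (hb : ∀ w, dd x w ≤ g * K → |ψ w| ≤ b) (k : ℕ) :
    ∀ y, dd x y + 32 * g * k ≤ g * K → |ψ y| ≤ ε ^ k * b := by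
  induction k with
  | zero =>
    intro y hy
    rw [pow_zero, one_mul]
    exact hb y (by omega)
  | succ k ih =>
    intro y hy
    have h1 : 32 * g * (k + 1) = 32 * g * k + 32 * g := by ring
    rw [pow_succ', mul_assoc]
    refine one V E g K hg x η δ ε hη hδ bad hgood hpair hres hε1 hε2 ψ hψ y ?_ _ ?_
    · have : 0 ≤ 32 * g * k := Nat.zero_le _
      omega
    · intro w hw
      apply ih
      have h2 := dd_tri x y w
      omega

end Pool.Agent.Helper8.Stp
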