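import Pool.Agent.Helper8.Stp.Prob

/-! # One step of the multiscale analysis -/

set_option autoImplicit false

open MeasureTheory
open scoped BigOperators ENNReal NNReal

namespace Pool.Agent.Helper8.Stp

open Pool.Agent.H4R2.LO (Zd dd bx AL rs Hm Near adj)
open Pool.Agent.H4R2.LO.Em (dd_le_iff le_dd dd_comm dd_tri dd_self mem_bx card_bx)
open Pool.Agent.H5R2.NB (PP)
open Pool.Agent.Helper28.Tg

/-- the size of a factor -/
theorem eps_pow (d n s : ℕ) (h1 : 14 * d ≤ n) (h2 : s ≤ n) :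
    ((2 : ℝ) ^ (7 * d) * ((2 : ℝ) ^ n)⁻¹) ^ (8 * d + 8) ≤ eta d (n + s) := by
  have h3 : ((2 : ℝ) ^ (7 * d) * ((2 : ℝ) ^ n)⁻¹) ^ 2 ≤ ((2 : ℝ) ^ n)⁻¹ := by
    rw [mul_pow, ← pow_mul]
    have h4 : (2 : ℝ) ^ (7 * d * 2) ≤ 2 ^ n := pow_le_pow_right₀ one_le_two (by omega)
    have h5 : (0 : ℝ) < 2 ^ n := by positivity
    calc (2 : ℝ) ^ (7 * d * 2) * (((2 : ℝ) ^ n)⁻¹) ^ 2 ≤ 2 ^ n * (((2 : ℝ) ^ n)⁻¹) ^ 2 :=
          mul_le_mul_of_nonneg_right h4 (by positivity)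
      _ = ((2 : ℝ) ^ n)⁻¹ := by field_simp
  have h6 : 8 * d + 8 = 2 * (4 * d + 4) := by ring
  rw [h6, pow_mul]
  calc (((2 : ℝ) ^ (7 * d) * ((2 : ℝ) ^ n)⁻¹) ^ 2) ^ (4 * d + 4)
      ≤ (((2 : ℝ) ^ n)⁻¹) ^ (4 * d + 4) := pow_le_pow_left₀ (by positivity) h3 _
    _ = ((2 : ℝ) ^ (n * (4 * d + 4)))⁻¹ := by rw [inv_pow, ← pow_mul]
    _ ≤ eta d (n + s) := by
        unfold eta
        apply inv_anti₀ (by positivity)
        apply pow_le_pow_right₀ one_le_two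
        nlinarith

theorem eps_one (d n : ℕ) (hd : 1 ≤ d) (g : ℕ) (hg : 2 * g = 2 ^ n) :
    (((2 : ℝ) ^ ((d + 1) * n))⁻¹)⁻¹ * (2 * (16 * g : ℕ) + 1) ^ d * (2 * d * eta d n) ≤
      (2 : ℝ) ^ (7 * d) * ((2 : ℝ) ^ n)⁻¹ := by
  have hg' : (g : ℝ) * 2 = 2 ^ n := by
    have : ((2 * g : ℕ) : ℝ) = ((2 ^ n : ℕ) : ℝ) := by exact_mod_cast hg
    push_cast at this
    linarith
  have h1 : (2 * ((16 * g : ℕ) : ℝ) + 1) ≤ 2 ^ (n + 5) := by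
    push_cast
    have h2 : (1 : ℝ) ≤ 2 ^ n := one_le_pow₀ one_le_two
    rw [pow_add]
    nlinarith
  have h2 : (2 * ((16 * g : ℕ) : ℝ) + 1) ^ d ≤ 2 ^ ((n + 5) * d) := by
    rw [pow_mul]
    exact pow_le_pow_left₀ (by positivity) h1 d
  have h3 : (2 : ℝ) * d ≤ 2 ^ (2 * d) := by
    have h4 : d < 2 ^ d := Nat.lt_two_pow_self
    have h5 : 2 ^ (d + 1) ≤ 2 ^ (2 * d) := Nat.pow_le_pow_right (by norm_num) (by omega)
    have h6 : 2 * d ≤ 2 ^ (2 * d) := by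
      rw [pow_succ] at h5
      omega
    exact_mod_cast h6
  rw [inv_inv]
  unfold eta
  have h7 : (2 : ℝ) ^ ((2 * d + 2) * n) = 2 ^ ((d + 1) * n) * 2 ^ (n * d) * 2 ^ n := by
    rw [← pow_add, ← pow_add]
    congr 1
    ring
  have h8 : (2 : ℝ) ^ ((n + 5) * d) = 2 ^ (n * d) * 2 ^ (5 * d) := by
    rw [← pow_add]
    congr 1
    ring
  have h9 : (2 : ℝ) ^ (7 * d) = 2 ^ (5 * d) * 2 ^ (2 * d) := by
    rw [← pow_add]
    congr 1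
    ring
  rw [h7, h9]
  rw [h8] at h2
  have p1 : (0 : ℝ) < 2 ^ ((d + 1) * n) := by positivity
  have p2 : (0 : ℝ) < 2 ^ (n * d) := by positivity
  have p3 : (0 : ℝ) < 2 ^ n := by positivity
  calc (2 : ℝ) ^ ((d + 1) * n) * (2 * ((16 * g : ℕ) : ℝ) + 1) ^ d *
        (2 * d * ((2 : ℝ) ^ ((d + 1) * n) * 2 ^ (n * d) * 2 ^ n)⁻¹)
      ≤ (2 : ℝ) ^ ((d + 1) * n) * (2 ^ (n * d) * 2 ^ (5 * d)) *
        (2 ^ (2 * d) * ((2 : ℝ) ^ ((d + 1) * n) * 2 ^ (n * d) * 2 ^ n)⁻¹) := by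
        gcongr
    _ = (2 : ℝ) ^ (5 * d) * 2 ^ (2 * d) * (2 ^ n)⁻¹ := by
        field_simp

theorem eta_le (d n : ℕ) : eta d n ≤ (2 : ℝ) ^ (7 * d) * ((2 : ℝ) ^ n)⁻¹ := by
  unfold eta
  have h1 : ((2 : ℝ) ^ ((2 * d + 2) * n))⁻¹ ≤ ((2 : ℝ) ^ n)⁻¹ := by
    apply inv_anti₀ (by positivity)
    apply pow_le_pow_right₀ one_le_two
    nlinarith
  have h2 : (1 : ℝ) ≤ 2 ^ (7 * d) := one_le_pow₀ one_le_two
  have h3 : (0 : ℝ) < ((2 : ℝ) ^ n)⁻¹ := by positivity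
  nlinarith

/-- the probabilities -/
theorem prob_num (d : ℕ) (hd : 1 ≤ d) (κ : ℝ) (hκ : 0 < κ) (hκ' : κ ≤ 1 / 4) (c0 : ℕ) (D : ℝ)
    (hD : 8 * D ≤ 2 ^ c0) (hD0 : 0 ≤ D) (n s g : ℕ) (hg : 2 * g = 2 ^ n)
    (hs : (s : ℝ) ≤ κ * n / (8 * d)) (hb : 2 * (6 * d + 1) ≤ κ * n)
    (hc : 2 * (8 * d + c0 + 1) ≤ n) :
    ((2 * ((2 : ℝ) ^ (s + 1) + 1) + 1) ^ d * pro κ n) ^ 2 +
      (2 * ((2 : ℝ) ^ (s + 1) + 1) + 1) ^ d *
        (8 * D * ((2 : ℝ) ^ ((d + 1) * n))⁻¹ * (2 * (16 * g : ℕ) + 1) ^ d) ≤ pro κ (n + s) := by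
  have hg' : (g : ℝ) * 2 = 2 ^ n := by
    have : ((2 * g : ℕ) : ℝ) = ((2 ^ n : ℕ) : ℝ) := by exact_mod_cast hg
    push_cast at this
    linarith
  have hd' : (1 : ℝ) ≤ d := by exact_mod_cast hd
  have hn0 : (0 : ℝ) ≤ n := Nat.cast_nonneg n
  have hs0 : (0 : ℝ) ≤ s := Nat.cast_nonneg s
  have hsd : (s : ℝ) * d ≤ κ * n / 8 := by
    rw [le_div_iff₀ (by positivity)] at hs
    linarith
  have h1 : (2 * ((2 : ℝ) ^ (s + 1) + 1) + 1) ≤ 2 ^ (s + 3) := by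
    have h2 : (1 : ℝ) ≤ 2 ^ s := one_le_pow₀ one_le_two
    rw [pow_add, pow_add]
    nlinarith
  have h2 : (2 * ((2 : ℝ) ^ (s + 1) + 1) + 1) ^ d ≤ (2 : ℝ) ^ ((d : ℝ) * (s + 3)) := by
    calc (2 * ((2 : ℝ) ^ (s + 1) + 1) + 1) ^ d ≤ ((2 : ℝ) ^ (s + 3)) ^ d :=
          pow_le_pow_left₀ (by positivity) h1 d
      _ = (2 : ℝ) ^ ((d : ℝ) * (s + 3)) := by
          rw [← pow_mul, ← Real.rpow_natCast]
          congr 1
          push_cast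
          ring
  have h3 : (2 * ((16 * g : ℕ) : ℝ) + 1) ^ d ≤ (2 : ℝ) ^ ((d : ℝ) * (n + 5)) := by
    have h4 : (2 * ((16 * g : ℕ) : ℝ) + 1) ≤ 2 ^ (n + 5) := by
      push_cast
      have h2 : (1 : ℝ) ≤ 2 ^ n := one_le_pow₀ one_le_two
      rw [pow_add]
      nlinarith
    calc (2 * ((16 * g : ℕ) : ℝ) + 1) ^ d ≤ ((2 : ℝ) ^ (n + 5)) ^ d :=
          pow_le_pow_left₀ (by positivity) h4 d
      _ = (2 : ℝ) ^ ((d : ℝ) * (n + 5)) := by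
          rw [← pow_mul, ← Real.rpow_natCast]
          congr 1
          push_cast
          ring
  have h4 : 8 * D ≤ (2 : ℝ) ^ (c0 : ℝ) := by
    rw [Real.rpow_natCast]
    exact hD
  have h5 : ((2 : ℝ) ^ ((d + 1) * n))⁻¹ = (2 : ℝ) ^ (-(((d : ℝ) + 1) * n)) := by
    rw [Real.rpow_neg zero_le_two, ← Real.rpow_natCast]
    congr 2
    push_cast
    ring
  have hh : ∀ t : ℝ, (0 : ℝ) < 2 ^ t := fun t => Real.rpow_pos_of_pos two_pos t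
  unfold pro
  rw [h5]
  have hks : κ * s ≤ κ * n / 32 := by
    have : κ * s ≤ 1 / 4 * (s * d) := by nlinarith
    linarith
  have a1 : ((2 * ((2 : ℝ) ^ (s + 1) + 1) + 1) ^ d * (2 : ℝ) ^ (-(κ * (n : ℝ)))) ^ 2 ≤
      (2 : ℝ) ^ (-(κ * ((n + s : ℕ) : ℝ)) - 1) := by
    calc ((2 * ((2 : ℝ) ^ (s + 1) + 1) + 1) ^ d * (2 : ℝ) ^ (-(κ * (n : ℝ)))) ^ 2
        ≤ ((2 : ℝ) ^ ((d : ℝ) * (s + 3)) * (2 : ℝ) ^ (-(κ * (n : ℝ)))) ^ 2 := by
          apply pow_le_pow_left₀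
          · have := hh (-(κ * (n : ℝ)))
            positivity
          · exact mul_le_mul_of_nonneg_right h2 (hh _).le
      _ = (2 : ℝ) ^ (((d : ℝ) * (s + 3) + -(κ * (n : ℝ))) * 2) := by
          rw [← Real.rpow_add two_pos, Real.rpow_mul zero_le_two, Real.rpow_ofNat]
      _ ≤ _ := by
          apply Real.rpow_le_rpow_of_exponent_le one_le_two
          push_cast
          nlinarith
  have a2 : (2 * ((2 : ℝ) ^ (s + 1) + 1) + 1) ^ d *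
        (8 * D * (2 : ℝ) ^ (-(((d : ℝ) + 1) * n)) * (2 * ((16 * g : ℕ) : ℝ) + 1) ^ d) ≤
      (2 : ℝ) ^ (-(κ * ((n + s : ℕ) : ℝ)) - 1) := by
    calc (2 * ((2 : ℝ) ^ (s + 1) + 1) + 1) ^ d *
          (8 * D * (2 : ℝ) ^ (-(((d : ℝ) + 1) * n)) * (2 * ((16 * g : ℕ) : ℝ) + 1) ^ d)
        ≤ (2 : ℝ) ^ ((d : ℝ) * (s + 3)) *
          ((2 : ℝ) ^ (c0 : ℝ) * (2 : ℝ) ^ (-(((d : ℝ) + 1) * n)) *
            (2 : ℝ) ^ ((d : ℝ) * (n + 5))) := by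
          have q1 := hh (-(((d : ℝ) + 1) * n))
          have q2 := hh ((d : ℝ) * (n + 5))
          have q3 := hh (c0 : ℝ)
          have q4 := hh ((d : ℝ) * (s + 3))
          apply mul_le_mul h2 _ (by positivity) q4.le
          apply mul_le_mul _ h3 (by positivity) (by positivity)
          exact mul_le_mul_of_nonneg_right h4 q1.le
      _ = (2 : ℝ) ^ ((d : ℝ) * (s + 3) + ((c0 : ℝ) + -(((d : ℝ) + 1) * n) +
            (d : ℝ) * (n + 5))) := by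
          rw [← Real.rpow_add two_pos, ← Real.rpow_add two_pos, ← Real.rpow_add two_pos]
      _ ≤ _ := by
          apply Real.rpow_le_rpow_of_exponent_le one_le_two
          have hc' : (2 : ℝ) * (8 * d + c0 + 1) ≤ n := by exact_mod_cast hc
          push_cast
          nlinarith
  have a3 : (2 : ℝ) ^ (-(κ * ((n + s : ℕ) : ℝ)) - 1) + (2 : ℝ) ^ (-(κ * ((n + s : ℕ) : ℝ)) - 1) =
      (2 : ℝ) ^ (-(κ * ((n + s : ℕ) : ℝ))) := by
    rw [Real.rpow_sub two_pos, Real.rpow_one]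
    ring
  linarith

theorem t_STP : St_STP := by
  intro d hd C κ hκ hκ'
  obtain ⟨c0, hc0⟩ : ∃ c0 : ℕ, 8 * ((C : ℝ) + 1) ≤ 2 ^ c0 := by
    obtain ⟨c0, h⟩ := pow_unbounded_of_one_lt (8 * ((C : ℝ) + 1)) one_lt_two
    exact ⟨c0, h.le⟩
  refine ⟨⌈((16 * d * (8 + d) + 2 * (6 * d + 1) : ℝ)) / κ⌉₊ + 2 * (8 * d + c0 + 1), ?_⟩
  intro ν _ hν n s hn hs1 hs2 B hB
  have hd' : (1 : ℝ) ≤ d := by exact_mod_cast hd
  have hκn : (16 * d * (8 + d) + 2 * (6 * d + 1) : ℝ) ≤ κ * n := by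
    have h1 : ((16 * d * (8 + d) + 2 * (6 * d + 1) : ℝ)) / κ ≤ n := by
      refine (Nat.le_ceil _).trans ?_
      have : ⌈((16 * d * (8 + d) + 2 * (6 * d + 1) : ℝ)) / κ⌉₊ ≤ n := by omega
      exact_mod_cast this
    rw [div_le_iff₀ hκ] at h1
    linarith
  have hn2 : 2 * (8 * d + c0 + 1) ≤ n := by omega
  have hn1 : 1 ≤ n := by omega
  have hn14 : 14 * d ≤ n := by omega
  have hn0 : (0 : ℝ) ≤ n := Nat.cast_nonneg n
  have hsn : s ≤ n := by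
    have h1 : (s : ℝ) ≤ n := by
      refine hs1.trans ?_
      rw [div_le_iff₀ (by positivity)]
      nlinarith
    exact_mod_cast h1
  have hs8 : 8 + d ≤ s := by
    have h1 : ((8 + d : ℕ) : ℝ) ≤ s := by
      refine le_trans ?_ hs2
      rw [le_div_iff₀ (by positivity)]
      push_cast
      nlinarith
    exact_mod_cast h1
  have h2s : 256 * (d + 1) ≤ 2 ^ s := by
    have h1 : d + 1 ≤ 2 ^ d := Nat.lt_two_pow_self
    calc 256 * (d + 1) ≤ 2 ^ 8 * 2 ^ d := by omega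
      _ = 2 ^ (8 + d) := by rw [pow_add]
      _ ≤ 2 ^ s := Nat.pow_le_pow_right (by norm_num) hs8
  obtain ⟨g, hg⟩ : ∃ g : ℕ, g = 2 ^ (n - 1) := ⟨_, rfl⟩
  have hg2 : 2 * g = 2 ^ n := by
    obtain ⟨k, rfl⟩ : ∃ k, n = k + 1 := ⟨n - 1, by omega⟩
    rw [hg, pow_succ]
    simp
    ring
  have hg0 : 0 < g := by rw [hg]; positivity
  have hgK : g * 2 ^ (s + 1) = 2 ^ (n + s) := by
    rw [pow_succ, pow_add, ← hg2]
    ring
  have hloc : ∀ c V V' E, (∀ y, dd c y ≤ 4 * g → V y = V' y) → (V, E) ∈ B c →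
      (V', E) ∈ B c := by
    intro c V V' E h
    refine hB.loc c V V' E fun y hy => h y ?_
    omega
  have hp0 : 0 ≤ pro κ n := by
    unfold pro
    exact Real.rpow_nonneg zero_le_two _
  have hδ : (0 : ℝ) < ((2 : ℝ) ^ ((d + 1) * n))⁻¹ := by positivity
  refine ⟨New B g (2 ^ (s + 1)) ((2 : ℝ) ^ ((d + 1) * n))⁻¹, ?_, ?_, ?_, ?_⟩
  · intro x
    exact new_open B hB.op _ _ _ _
  · intro x V V' E h
    refine new_loc B g (2 ^ (s + 1)) (2 * 2 ^ (n + s)) hg0 hloc _ x ?_ V V' E h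
    rw [hgK]
    have h1 : 18 * g ≤ 2 ^ (n + s) := by
      rw [pow_add, ← hg2]
      nlinarith
    omega
  · intro x E
    refine (new_pr ν C hν B hB.op g (2 ^ (s + 1)) hloc (pro κ n) hp0 hB.pr _ hδ x E).trans ?_
    apply ENNReal.ofReal_le_ofReal
    have h1 := prob_num d hd κ hκ hκ' c0 ((C : ℝ) + 1) hc0 (by positivity) n s g hg2 hs1
      (by nlinarith) hn2
    push_cast at h1 ⊢
    exact h1
  · intro x V E hVE ψ hψ b hb u hu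
    have hb0 : 0 ≤ b := (abs_nonneg _).trans (hb x (by rw [dd_self]; omega))
    have h1 : ∀ m ∈ gi g (2 ^ (s + 1) + 1) x, ∀ m' ∈ gi g (2 ^ (s + 1) + 1) x,
        8 * g < dd (gc g m) (gc g m') → ¬ ((V, E) ∈ B (gc g m) ∧ (V, E) ∈ B (gc g m')) := by
      intro m hm m' hm' hfar hbad
      apply hVE
      left
      simp only [Set.mem_iUnion, exists_prop]
      exact ⟨m, hm, m', hm', hfar, hbad.1, hbad.2⟩
    have h2 : ∀ m ∈ gi g (2 ^ (s + 1) + 1) x,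
        (V, E) ∉ Res (gc g m) (16 * g) ((2 : ℝ) ^ ((d + 1) * n))⁻¹ := by
      intro m hm hbad
      apply hVE
      right
      simp only [Set.mem_iUnion, exists_prop]
      exact ⟨m, hm, hbad⟩
    have h3 : ∀ c, ¬ (V, E) ∈ B c → Dc c (2 * g) (eta d n) E V := by
      intro c hc
      rw [hg2]
      exact hB.dc c V E hc
    have h4 := iter V E g (2 ^ (s + 1)) hg0 x (eta d n) _
      ((2 : ℝ) ^ (7 * d) * ((2 : ℝ) ^ n)⁻¹) (by unfold eta; positivity) hδ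
      (fun c => (V, E) ∈ B c) h3 h1 h2 (eta_le d n) (eps_one d n hd g hg2) ψ
      (fun w hw => hψ w (by rw [← hgK]; exact hw)) b
      (fun w hw => hb w (by rw [← hgK]; omega)) (8 * d + 8) u (by
        have h5 : 32 * g * (8 * d + 8) * 2 ≤ g * 2 ^ (s + 1) := by
          rw [pow_succ]
          nlinarith
        rw [← hgK] at hu
        omega)
    exact h4.trans (mul_le_mul_of_nonneg_right (eps_pow d n s hn14 hsn) hb0)

end Pool.Agent.Helper8.Stp
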