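import Pool.Agent.Helper8.Stp.Det
import Pool.Graph.R_seed8.H4R2.LO.Wg

/-! # One step of the multiscale analysis: probabilities -/

set_option autoImplicit false

open MeasureTheory
open scoped BigOperators ENNReal NNReal

namespace Pool.Agent.Helper8.Stp

open Pool.Agent.H4R2.LO (Zd dd bx AL rs Hm Near adj)
open Pool.Agent.H4R2.LO.Em (dd_le_iff le_dd dd_comm dd_tri dd_self mem_bx card_bx)
open Pool.Agent.H5R2.NB (PP)
open Pool.Agent.Helper28.Tg

variable {d : ℕ}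

/-- extension by zero -/
noncomputable def ext (Λ : Finset (Zd d)) (η : Λ → ℝ) : Zd d → ℝ :=
  fun x => if h : x ∈ Λ then η ⟨x, h⟩ else 0

theorem ext_meas (Λ : Finset (Zd d)) : Measurable (ext Λ) := by
  refine measurable_pi_lambda _ fun x => ?_
  unfold ext
  by_cases h : x ∈ Λ
  · simp only [h, dif_pos]
    exact measurable_pi_apply _
  · simp only [h, dif_neg, not_false_eq_true]
    exact measurable_const

theorem rs_meas (Λ : Finset (Zd d)) : Measurable (rs Λ) :=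
  measurable_pi_lambda _ fun _ => measurable_pi_apply _

/-- events depending on the coordinates in `Λ` -/
theorem loc_eq (Λ : Finset (Zd d)) (A : Set (Zd d → ℝ)) (hA : MeasurableSet A)
    (hloc : ∀ V V', (∀ y ∈ Λ, V y = V' y) → V ∈ A → V' ∈ A) :
    ∃ S : Set (Λ → ℝ), MeasurableSet S ∧ A = rs Λ ⁻¹' S := by
  refine ⟨ext Λ ⁻¹' A, ext_meas Λ hA, ?_⟩
  ext V
  have h : ∀ y ∈ Λ, V y = ext Λ (rs Λ V) y := by
    intro y hy
    unfold ext rs
    rw [dif_pos hy]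
  constructor
  · intro hV
    exact hloc V _ h hV
  · intro hV
    exact hloc _ V (fun y hy => (h y hy).symm) hV

theorem indep (ν : Measure ℝ) [IsProbabilityMeasure ν] (Λ₁ Λ₂ : Finset (Zd d))
    (hdis : Disjoint Λ₁ Λ₂) (A₁ A₂ : Set (Zd d → ℝ)) (h1 : MeasurableSet A₁)
    (h2 : MeasurableSet A₂) (hl1 : ∀ V V', (∀ y ∈ Λ₁, V y = V' y) → V ∈ A₁ → V' ∈ A₁)
    (hl2 : ∀ V V', (∀ y ∈ Λ₂, V y = V' y) → V ∈ A₂ → V' ∈ A₂) :
    (PP d ν) (A₁ ∩ A₂) = (PP d ν) A₁ * (PP d ν) A₂ := by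
  obtain ⟨S₁, m1, e1⟩ := loc_eq Λ₁ A₁ h1 hl1
  obtain ⟨S₂, m2, e2⟩ := loc_eq Λ₂ A₂ h2 hl2
  have h3 : ProbabilityTheory.iIndepFun (fun (i : Zd d) (ω : Zd d → ℝ) => ω i)
      (Measure.infinitePi fun _ : Zd d => ν) :=
    ProbabilityTheory.iIndepFun_infinitePi (P := fun _ : Zd d => ν)
      (X := fun _ : Zd d => (id : ℝ → ℝ)) (fun _ => measurable_id)
  have h4 := h3.indepFun_finset Λ₁ Λ₂ hdis (fun i => measurable_pi_apply i)
  have h5 := h4.measure_inter_preimage_eq_mul S₁ S₂ m1 m2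
  rw [e1, e2]
  exact h5

theorem wegner_box (ν : Measure ℝ) [IsProbabilityMeasure ν] (C : ℝ≥0) (hν : ν ≤ C • volume)
    (c : Zd d) (r : ℕ) (δ : ℝ) (hδ : 0 < δ) (E : ℝ) :
    (PP d ν) {V | (V, E) ∈ Res c r δ} ≤ ENNReal.ofReal (8 * (C + 1) * δ * (2 * r + 1) ^ d) := by
  have hD : (0 : ℝ) < C + 1 := by positivity
  have hν' : ν ≤ ENNReal.ofReal ((C : ℝ) + 1) • (volume : Measure ℝ) := by
    refine hν.trans ?_
    intro s
    rw [Measure.smul_apply, Measure.smul_apply]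
    have h1 : (C • (volume : Measure ℝ) s) = (C : ℝ≥0∞) * volume s := by
      rfl
    rw [h1, smul_eq_mul]
    apply mul_le_mul_left
    rw [ENNReal.ofReal_add (NNReal.coe_nonneg C) zero_le_one, ENNReal.ofReal_coe_nnreal]
    exact le_self_add
  obtain ⟨S, m, h1, h2⟩ := Pool.Agent.H4R2.LO.Wg.wegner ν ((C : ℝ) + 1) hD hν' (AL (bx c r))
    (Pool.Agent.H4R2.LO.Em.AL_symm _) (fun i => Pool.Agent.H4R2.LO.Em.adj_self _) 1 one_pos E δ hδ
  have h3 : {V : Zd d → ℝ | (V, E) ∈ Res c r δ} ⊆ rs (bx c r) ⁻¹' S := by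
    rintro V ⟨f, hf⟩
    refine h1 _ ⟨f, ?_, hf.le⟩
    rintro rfl
    simp at hf
  refine (measure_mono h3).trans ?_
  have h4 : (PP d ν) (rs (bx c r) ⁻¹' S) = (Measure.pi fun _ : bx c r => ν) S := by
    rw [← Pool.Agent.H4R2.LO.Em.rs_map ν (bx c r), Measure.map_apply (rs_meas _) m]
    rfl
  rw [h4]
  refine h2.trans (ENNReal.ofReal_le_ofReal (le_of_eq ?_))
  rw [Fintype.card_coe, card_bx]
  push_cast
  ring

theorem res_open (c : Zd d) (r : ℕ) (δ : ℝ) : IsOpen (Res c r δ) := by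
  have h : Res c r δ = ⋃ f : bx c r → ℝ, {p : (Zd d → ℝ) × ℝ |
      ∑ i, ((Hm (AL (bx c r)) 1 (rs (bx c r) p.1) p.2).mulVec f i) ^ 2 < δ ^ 2 * ∑ i, f i ^ 2} := by
    ext p
    rw [Set.mem_iUnion]
    rfl
  rw [h]
  apply isOpen_iUnion
  intro f
  apply isOpen_lt _ continuous_const
  apply continuous_finsetSum
  intro i _
  apply Continuous.pow
  have h1 : ∀ p : (Zd d → ℝ) × ℝ, (Hm (AL (bx c r)) 1 (rs (bx c r) p.1) p.2).mulVec f i =
      (AL (bx c r)).mulVec f i + (1 * p.1 i.1 - p.2) * f i := by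
    intro p
    unfold Hm
    rw [Matrix.add_mulVec, Pi.add_apply, Matrix.mulVec_diagonal]
    rfl
  simp only [h1]
  have h2 : Continuous fun p : (Zd d → ℝ) × ℝ => p.1 i.1 :=
    (continuous_apply i.1).comp continuous_fst
  fun_prop

theorem res_loc (c : Zd d) (r : ℕ) (δ : ℝ) (V V' : Zd d → ℝ) (E : ℝ)
    (h : ∀ y, dd c y ≤ r → V y = V' y) (hV : (V, E) ∈ Res c r δ) : (V', E) ∈ Res c r δ := by
  obtain ⟨f, hf⟩ := hV
  refine ⟨f, ?_⟩
  have h1 : rs (bx c r) V' = rs (bx c r) V := by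
    funext i
    unfold rs
    exact (h i.1 ((mem_bx c i.1 r).1 i.2)).symm
  show ∑ i, ((Hm (AL (bx c r)) 1 (rs (bx c r) V') E).mulVec f i) ^ 2 < δ ^ 2 * ∑ i, f i ^ 2
  rw [h1]
  exact hf

/-! ### the new bad set -/

/-- two bad boxes far apart, or a resonant box -/
def New (B : Zd d → Set ((Zd d → ℝ) × ℝ)) (g K : ℕ) (δ : ℝ) (x : Zd d) :
    Set ((Zd d → ℝ) × ℝ) :=
  (⋃ m ∈ gi g (K + 1) x, ⋃ m' ∈ gi g (K + 1) x,
    {p | 8 * g < dd (gc g m) (gc g m') ∧ p ∈ B (gc g m) ∩ B (gc g m')}) ∪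
  ⋃ m ∈ gi g (K + 1) x, Res (gc g m) (16 * g) δ

theorem new_open (B : Zd d → Set ((Zd d → ℝ) × ℝ)) (hB : ∀ c, IsOpen (B c)) (g K : ℕ) (δ : ℝ)
    (x : Zd d) : IsOpen (New B g K δ x) := by
  unfold New
  apply IsOpen.union
  · refine isOpen_biUnion fun m _ => isOpen_biUnion fun m' _ => ?_
    by_cases h : 8 * g < dd (gc g m) (gc g m')
    · have : {p | 8 * g < dd (gc g m) (gc g m') ∧ p ∈ B (gc g m) ∩ B (gc g m')} =
          B (gc g m) ∩ B (gc g m') := by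
        ext p
        simp [h]
      rw [this]
      exact (hB _).inter (hB _)
    · have : {p | 8 * g < dd (gc g m) (gc g m') ∧ p ∈ B (gc g m) ∩ B (gc g m')} = ∅ := by
        ext p
        simp [h]
      rw [this]
      exact isOpen_empty
  · exact isOpen_biUnion fun m _ => res_open _ _ _

theorem new_loc (B : Zd d → Set ((Zd d → ℝ) × ℝ)) (g K R : ℕ) (hg : 0 < g)
    (hB : ∀ c V V' E, (∀ y, dd c y ≤ 4 * g → V y = V' y) → (V, E) ∈ B c → (V', E) ∈ B c)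
    (δ : ℝ) (x : Zd d) (hR : g * K + 18 * g ≤ R)
    (V V' : Zd d → ℝ) (E : ℝ) (h : ∀ y, dd x y ≤ R → V y = V' y) (hV : (V, E) ∈ New B g K δ x) :
    (V', E) ∈ New B g K δ x := by
  have hm : ∀ m ∈ gi g (K + 1) x, ∀ y, dd (gc g m) y ≤ 16 * g → V y = V' y := by
    intro m hm y hy
    apply h
    have h1 := gi_dist g (K + 1) hg x m hm
    have h2 := dd_tri x (gc g m) y
    have h3 : g * (K + 1) = g * K + g := by ring
    omega
  unfold New at hV ⊢
  rcases hV with hV | hV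
  · left
    simp only [Set.mem_iUnion, exists_prop] at hV ⊢
    obtain ⟨m, h1, m', h2, h3, h4, h5⟩ := hV
    exact ⟨m, h1, m', h2, h3, hB _ V V' E (fun y hy => hm m h1 y (by omega)) h4,
      hB _ V V' E (fun y hy => hm m' h2 y (by omega)) h5⟩
  · right
    simp only [Set.mem_iUnion, exists_prop] at hV ⊢
    obtain ⟨m, h1, h2⟩ := hV
    exact ⟨m, h1, res_loc _ _ _ V V' E (hm m h1) h2⟩

theorem new_pr_at (ν : Measure ℝ) [IsProbabilityMeasure ν] (C : ℝ≥0) (hν : ν ≤ C • volume)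
    (B : Zd d → Set ((Zd d → ℝ) × ℝ)) (hBo : ∀ c, IsOpen (B c)) (g K : ℕ)
    (hB : ∀ c V V' E, (∀ y, dd c y ≤ 4 * g → V y = V' y) → (V, E) ∈ B c → (V', E) ∈ B c)
    (p : ℝ) (hp0 : 0 ≤ p) (E : ℝ) (hp : ∀ c, (PP d ν) {V | (V, E) ∈ B c} ≤ ENNReal.ofReal p)
    (δ : ℝ) (hδ : 0 < δ) (x : Zd d) :
    (PP d ν) {V | (V, E) ∈ New B g K δ x} ≤ ENNReal.ofReal
      (((2 * (K + 1) + 1) ^ d * p) ^ 2 +
        (2 * (K + 1) + 1) ^ d * (8 * (C + 1) * δ * (2 * (16 * g : ℕ) + 1) ^ d)) := by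
  obtain ⟨N, hN⟩ : ∃ N : ℝ, N = (2 * (K + 1) + 1) ^ d := ⟨_, rfl⟩
  have hN0 : 0 ≤ N := by rw [hN]; positivity
  have hcard : ((gi g (K + 1) x).card : ℝ) = N := by
    rw [gi_card, hN]
    push_cast
    ring
  rw [← hN]
  obtain ⟨w, hw⟩ : ∃ w : ℝ, w = 8 * (C + 1) * δ * (2 * (16 * g : ℕ) + 1) ^ d := ⟨_, rfl⟩
  have hw0 : 0 ≤ w := by rw [hw]; positivity
  rw [← hw]
  have hsec : ∀ c, MeasurableSet {V : Zd d → ℝ | (V, E) ∈ B c} := by
    intro c
    have hcont : Continuous fun V : Zd d → ℝ => (V, E) := by fun_prop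
    exact ((hBo c).preimage hcont).measurableSet
  have hsub : {V : Zd d → ℝ | (V, E) ∈ New B g K δ x} ⊆
      (⋃ m ∈ gi g (K + 1) x, ⋃ m' ∈ gi g (K + 1) x,
        {V | 8 * g < dd (gc g m) (gc g m') ∧
          V ∈ {V : Zd d → ℝ | (V, E) ∈ B (gc g m)} ∩ {V : Zd d → ℝ | (V, E) ∈ B (gc g m')}}) ∪
      ⋃ m ∈ gi g (K + 1) x, {V | (V, E) ∈ Res (gc g m) (16 * g) δ} := by
    intro V hV
    rcases hV with hV | hV
    · left
      simp only [Set.mem_iUnion, exists_prop] at hV ⊢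
      exact hV
    · right
      simp only [Set.mem_iUnion, exists_prop] at hV ⊢
      exact hV
  have hpair : ∀ m m' : Zd d, (PP d ν) {V | 8 * g < dd (gc g m) (gc g m') ∧
      V ∈ {V : Zd d → ℝ | (V, E) ∈ B (gc g m)} ∩ {V : Zd d → ℝ | (V, E) ∈ B (gc g m')}} ≤
      ENNReal.ofReal (p ^ 2) := by
    intro m m'
    by_cases h : 8 * g < dd (gc g m) (gc g m')
    · have hdis : Disjoint (bx (gc g m) (4 * g)) (bx (gc g m') (4 * g)) := by
        rw [Finset.disjoint_left]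
        intro y hy hy'
        rw [mem_bx] at hy hy'
        have h1 := dd_tri (gc g m) y (gc g m')
        have h2 := dd_comm y (gc g m')
        omega
      calc (PP d ν) {V | 8 * g < dd (gc g m) (gc g m') ∧
            V ∈ {V : Zd d → ℝ | (V, E) ∈ B (gc g m)} ∩ {V : Zd d → ℝ | (V, E) ∈ B (gc g m')}}
          ≤ (PP d ν) ({V : Zd d → ℝ | (V, E) ∈ B (gc g m)} ∩
            {V : Zd d → ℝ | (V, E) ∈ B (gc g m')}) := measure_mono fun V hV => hV.2
        _ = (PP d ν) {V : Zd d → ℝ | (V, E) ∈ B (gc g m)} *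
            (PP d ν) {V : Zd d → ℝ | (V, E) ∈ B (gc g m')} :=
            indep ν _ _ hdis _ _ (hsec _) (hsec _)
              (fun V V' hVV => hB _ V V' E fun y hy => hVV y ((mem_bx _ _ _).2 hy))
              (fun V V' hVV => hB _ V V' E fun y hy => hVV y ((mem_bx _ _ _).2 hy))
        _ ≤ ENNReal.ofReal p * ENNReal.ofReal p := mul_le_mul' (hp _) (hp _)
        _ = ENNReal.ofReal (p ^ 2) := by
            rw [← ENNReal.ofReal_mul hp0, sq]
    · have : {V | 8 * g < dd (gc g m) (gc g m') ∧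
          V ∈ {V : Zd d → ℝ | (V, E) ∈ B (gc g m)} ∩ {V : Zd d → ℝ | (V, E) ∈ B (gc g m')}} =
          ∅ := by
        ext V
        simp [h]
      rw [this, measure_empty]
      exact zero_le
  calc (PP d ν) {V | (V, E) ∈ New B g K δ x} ≤ _ := measure_mono hsub
    _ ≤ (PP d ν) (⋃ m ∈ gi g (K + 1) x, ⋃ m' ∈ gi g (K + 1) x,
        {V | 8 * g < dd (gc g m) (gc g m') ∧
          V ∈ {V : Zd d → ℝ | (V, E) ∈ B (gc g m)} ∩ {V : Zd d → ℝ | (V, E) ∈ B (gc g m')}}) +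
        (PP d ν) (⋃ m ∈ gi g (K + 1) x, {V | (V, E) ∈ Res (gc g m) (16 * g) δ}) :=
        measure_union_le _ _
    _ ≤ ∑ m ∈ gi g (K + 1) x, ∑ m' ∈ gi g (K + 1) x, ENNReal.ofReal (p ^ 2) +
        ∑ m ∈ gi g (K + 1) x, ENNReal.ofReal w := by
        apply add_le_add
        · refine (measure_biUnion_finset_le _ _).trans (Finset.sum_le_sum fun m _ => ?_)
          exact (measure_biUnion_finset_le _ _).trans (Finset.sum_le_sum fun m' _ => hpair m m')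
        · refine (measure_biUnion_finset_le _ _).trans (Finset.sum_le_sum fun m _ => ?_)
          rw [hw]
          exact wegner_box ν C hν _ _ δ hδ E
    _ = ENNReal.ofReal ((N * p) ^ 2 + N * w) := by
        rw [Finset.sum_const, Finset.sum_const, Finset.sum_const, nsmul_eq_mul, nsmul_eq_mul,
          nsmul_eq_mul, ← ENNReal.ofReal_natCast, hcard, ← ENNReal.ofReal_mul hN0,
          ← ENNReal.ofReal_mul hN0, ← ENNReal.ofReal_mul hN0, ← ENNReal.ofReal_add]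
        · congr 1
          ring
        · positivity
        · positivity

theorem new_pr (ν : Measure ℝ) [IsProbabilityMeasure ν] (C : ℝ≥0) (hν : ν ≤ C • volume)
    (B : Zd d → Set ((Zd d → ℝ) × ℝ)) (hBo : ∀ c, IsOpen (B c)) (g K : ℕ)
    (hB : ∀ c V V' E, (∀ y, dd c y ≤ 4 * g → V y = V' y) → (V, E) ∈ B c → (V', E) ∈ B c)
    (p : ℝ) (hp0 : 0 ≤ p) (hp : ∀ c E, (PP d ν) {V | (V, E) ∈ B c} ≤ ENNReal.ofReal p)
    (δ : ℝ) (hδ : 0 < δ) (x : Zd d) (E : ℝ) :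
    (PP d ν) {V | (V, E) ∈ New B g K δ x} ≤ ENNReal.ofReal
      (((2 * (K + 1) + 1) ^ d * p) ^ 2 +
        (2 * (K + 1) + 1) ^ d * (8 * (C + 1) * δ * (2 * (16 * g : ℕ) + 1) ^ d)) :=
  new_pr_at ν C hν B hBo g K hB p hp0 E (fun c => hp c E) δ hδ x

end Pool.Agent.Helper8.Stp
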