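import Pool.Agent.Helper28.Tg.Defs7

/-! # Deterministic step with variable energy: at most three separated bad boxes -/

set_option autoImplicit false

open scoped BigOperators

namespace Pool.Agent.Helper8.Stp.Des

open Pool.Agent.H4R2.LO (Zd dd bx)
open Pool.Agent.H4R2.LO.Em (dd_le_iff le_dd dd_comm dd_tri dd_self mem_bx card_bx)
open Pool.Agent.Helper28.Tg
open Pool.Agent.Helper8.Stp

variable {d : ℕ}

/-- the maximum on a box -/
theorem exists_max (ψ : Zd d → ℝ) (c : Zd d) (r : ℕ) :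
    ∃ y, dd c y ≤ r ∧ ∀ w, dd c w ≤ r → |ψ w| ≤ |ψ y| := by
  obtain ⟨y, hy, h⟩ := (bx c r).exists_max_image (fun w => |ψ w|)
    ⟨c, (mem_bx c c r).2 (by rw [dd_self]; omega)⟩
  exact ⟨y, (mem_bx c y r).1 hy, fun w hw => h w ((mem_bx c w r).2 hw)⟩

/-- the four points -/
theorem four (l L : ℕ) (x : Zd d) (bad : Zd d → Prop)
    (h4 : ∀ c : Fin 4 → Zd d, (∀ i, dd x (c i) ≤ L) → (∀ i j, i ≠ j → 4 * l < dd (c i) (c j)) →
      ∃ i, ¬ bad (c i)) (y0 y1 y2 y3 : Zd d) (h0 : dd x y0 ≤ L) (h1 : dd x y1 ≤ L)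
    (h2 : dd x y2 ≤ L) (h3 : dd x y3 ≤ L) (b0 : bad y0) (b1 : bad y1) (b2 : bad y2) (b3 : bad y3)
    (h01 : 4 * l < dd y0 y1) (h02 : 4 * l < dd y0 y2) (h03 : 4 * l < dd y0 y3)
    (h12 : 4 * l < dd y1 y2) (h13 : 4 * l < dd y1 y3) (h23 : 4 * l < dd y2 y3) : False := by
  have h10 := dd_comm y1 y0
  have h20 := dd_comm y2 y0
  have h30 := dd_comm y3 y0
  have h21 := dd_comm y2 y1
  have h31 := dd_comm y3 y1
  have h32 := dd_comm y3 y2
  obtain ⟨i, hi⟩ := h4 ![y0, y1, y2, y3] (by intro i; fin_cases i <;> simpa)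
    (by
      intro i j hij
      fin_cases i <;> fin_cases j <;> simp at hij ⊢ <;> omega)
  fin_cases i <;> simp at hi <;> contradiction

/-- the bad points are covered by three balls -/
theorem cover (l L : ℕ) (x : Zd d) (bad : Zd d → Prop)
    (h4 : ∀ c : Fin 4 → Zd d, (∀ i, dd x (c i) ≤ L) → (∀ i j, i ≠ j → 4 * l < dd (c i) (c j)) →
      ∃ i, ¬ bad (c i)) :
    ∃ c0 c1 c2 : Zd d, ∀ y, dd x y ≤ L → bad y →
      dd c0 y ≤ 4 * l ∨ dd c1 y ≤ 4 * l ∨ dd c2 y ≤ 4 * l := by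
  by_contra hcon
  push Not at hcon
  obtain ⟨y0, h0, b0, -⟩ := hcon x x x
  obtain ⟨y1, h1, b1, h01, -⟩ := hcon y0 y0 y0
  obtain ⟨y2, h2, b2, h02, h12, -⟩ := hcon y0 y1 y1
  obtain ⟨y3, h3, b3, h03, h13, h23⟩ := hcon y0 y1 y2
  exact four l L x bad h4 y0 y1 y2 y3 h0 h1 h2 h3 b0 b1 b2 b3 h01 h02 h03 h12 h13 h23

/-- the radial counting function -/
def gg (F : Finset ℕ) (r : ℕ) : ℕ := r + (F.filter (r ≤ ·)).card

theorem gg_le (F : Finset ℕ) (r s : ℕ) (h : r ≤ s) : gg F s ≤ gg F r + (s - r) := by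
  have : (F.filter (s ≤ ·)).card ≤ (F.filter (r ≤ ·)).card := by
    apply Finset.card_le_card
    intro t ht
    rw [Finset.mem_filter] at ht ⊢
    exact ⟨ht.1, h.trans ht.2⟩
  unfold gg
  omega

theorem gg_le' (F : Finset ℕ) (r s : ℕ) (h : r ≤ s) (hF : ∀ t, r ≤ t → t < s → t ∈ F) :
    gg F s ≤ gg F r := by
  have h1 : Disjoint (Finset.Ico r s) (F.filter (s ≤ ·)) := by
    rw [Finset.disjoint_left]
    intro t ht ht'
    rw [Finset.mem_Ico] at ht
    rw [Finset.mem_filter] at ht'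
    omega
  have h2 : (Finset.Ico r s) ∪ (F.filter (s ≤ ·)) ⊆ F.filter (r ≤ ·) := by
    intro t ht
    rw [Finset.mem_union, Finset.mem_Ico, Finset.mem_filter] at ht
    rw [Finset.mem_filter]
    rcases ht with ht | ht
    · exact ⟨hF t ht.1 ht.2, ht.1⟩
    · exact ⟨ht.1, h.trans ht.2⟩
  have h3 := Finset.card_le_card h2
  rw [Finset.card_union_of_disjoint h1, Nat.card_Ico] at h3
  unfold gg
  omega

/-- a bad point in the box: the value is at most half of a value nearby -/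
theorem bad_half (hd : 1 ≤ d) (l L : ℕ) (hl : 1 ≤ l) (hL : 300 * l ≤ L) (x : Zd d) (V : Zd d → ℝ)
    (E ρ δ : ℝ) (hδ : 0 < δ)
    (hres : δ⁻¹ * (100 * l : ℝ) ^ d * (2 * d * Real.exp (-ρ)) ≤ 1 / 2)
    (bad : Zd d → Prop) (hbad : ∀ c, ¬ bad c → Ce c l ρ E V)
    (h4 : ∀ c : Fin 4 → Zd d, (∀ i, dd x (c i) ≤ L) → (∀ i j, i ≠ j → 4 * l < dd (c i) (c j)) →
      ∃ i, ¬ bad (c i))
    (hR : ∀ c, dd x c ≤ L → ∀ k ∈ ({1, 2, 3} : Finset ℕ), (V, E) ∉ Res c (16 * k * l) δ)
    (ψ : Zd d → ℝ) (hψ : ∀ y, dd x y ≤ L → Hr V ψ y = E * ψ y) (y : Zd d)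
    (hy : dd x y + 64 * l ≤ L) (hb : bad y) :
    ∃ y', dd y y' ≤ 64 * l ∧ |ψ y| ≤ |ψ y'| / 2 := by
  obtain ⟨k, hk, hk'⟩ : ∃ k ∈ ({1, 2, 3} : Finset ℕ), ∀ w, dd y w = 16 * k * l + 1 → ¬ bad w := by
    by_contra hcon
    push Not at hcon
    obtain ⟨w1, e1, b1⟩ := hcon 1 (by simp)
    obtain ⟨w2, e2, b2⟩ := hcon 2 (by simp)
    obtain ⟨w3, e3, b3⟩ := hcon 3 (by simp)
    have t1 := dd_tri x y w1
    have t2 := dd_tri x y w2
    have t3 := dd_tri x y w3
    have t12 := dd_tri y w1 w2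
    have t13 := dd_tri y w1 w3
    have t23 := dd_tri y w2 w3
    exact four l L x bad h4 y w1 w2 w3 (by omega) (by omega) (by omega) (by omega) hb b1 b2 b3
      (by omega) (by omega) (by omega) (by omega) (by omega) (by omega)
  obtain ⟨y', hy', hmax⟩ := exists_max ψ y (64 * l)
  refine ⟨y', hy', ?_⟩
  have hk3 : k ≤ 3 := by
    simp only [Finset.mem_insert, Finset.mem_singleton] at hk
    omega
  have hkl : 16 * k * l ≤ 48 * l := by nlinarith
  have hsph : ∀ w, dd y w = 16 * k * l + 1 → |ψ w| ≤ Real.exp (-ρ) * |ψ y'| := by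
    intro w hw
    have t1 := dd_tri x y w
    refine hbad w (hk' w hw) ψ (fun z hz => hψ z ?_) |ψ y'| (fun z hz => hmax z ?_)
    · have t2 := dd_tri x w z
      omega
    · have t2 := dd_tri y w z
      omega
  have h1 := res_bound V E ψ y (16 * k * l) δ hδ (hR y (by omega) k hk)
    (fun w hw => hψ w (by have := dd_tri x y w; omega)) (Real.exp (-ρ) * |ψ y'|) (by positivity)
    hsph y (by rw [dd_self]; omega)
  have h2 : (2 * ((16 * k * l : ℕ) : ℝ) + 1) ^ d ≤ (100 * l : ℝ) ^ d := by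
    apply pow_le_pow_left₀ (by positivity)
    have h3 : ((16 * k * l : ℕ) : ℝ) ≤ ((48 * l : ℕ) : ℝ) := by exact_mod_cast hkl
    have h4 : (1 : ℝ) ≤ l := by exact_mod_cast hl
    push_cast at h3 ⊢
    linarith
  calc |ψ y| ≤ δ⁻¹ * (2 * ((16 * k * l : ℕ) : ℝ) + 1) ^ d * (2 * d * (Real.exp (-ρ) * |ψ y'|)) := h1
    _ ≤ δ⁻¹ * (100 * l : ℝ) ^ d * (2 * d * (Real.exp (-ρ) * |ψ y'|)) := by gcongr
    _ = (δ⁻¹ * (100 * l : ℝ) ^ d * (2 * d * Real.exp (-ρ))) * |ψ y'| := by ring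
    _ ≤ 1 / 2 * |ψ y'| := mul_le_mul_of_nonneg_right hres (abs_nonneg _)
    _ = |ψ y'| / 2 := by ring

/-- the radial induction -/
theorem radial (l L : ℕ) (x : Zd d) (ρ : ℝ) (hρ : 0 ≤ ρ) (F : Finset ℕ) (ψ : Zd d → ℝ) (b : ℝ)
    (hb : ∀ y, dd x y ≤ L + 1 → |ψ y| ≤ b)
    (hstep : ∀ y, dd x y + 64 * l ≤ L →
      (∃ y', dd y y' ≤ l + 1 ∧ |ψ y| ≤ Real.exp (-ρ) * |ψ y'|) ∨
      ((∃ y', dd y y' ≤ 64 * l ∧ |ψ y| ≤ |ψ y'| / 2) ∧
        ∀ t, dd x y ≤ t → t < dd x y + 64 * l → t ∈ F)) (hl : 1 ≤ l) :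
    ∀ (t r : ℕ), L + 1 - r = t → r ≤ L + 1 → ∀ y, dd x y ≤ r →
      |ψ y| ≤ Real.exp (-(ρ * ((L : ℝ) - 64 * l - gg F r) / (l + 1))) * b := by
  have hb0 : 0 ≤ b := (abs_nonneg _).trans (hb x (by rw [dd_self]; omega))
  intro t
  induction t using Nat.strong_induction_on with
  | _ t ih =>
  intro r hr hrL y0 hy0
  have hl0 : (0 : ℝ) < (l : ℝ) + 1 := by positivity
  by_cases hbig : r + 64 * l ≤ L
  swap
  · have h1 : (L : ℝ) - 64 * l - gg F r ≤ 0 := by
      have : (L : ℝ) ≤ ((r + 64 * l : ℕ) : ℝ) := by exact_mod_cast (by omega : L ≤ r + 64 * l)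
      have h2 : (r : ℝ) ≤ (gg F r : ℝ) := by exact_mod_cast (by unfold gg; omega : r ≤ gg F r)
      push_cast at this
      linarith
    have h2 : 1 ≤ Real.exp (-(ρ * ((L : ℝ) - 64 * l - gg F r) / (l + 1))) := by
      apply Real.one_le_exp
      have : ρ * ((L : ℝ) - 64 * l - gg F r) / (l + 1) ≤ 0 :=
        div_nonpos_of_nonpos_of_nonneg (mul_nonpos_of_nonneg_of_nonpos hρ h1) hl0.le
      linarith
    calc |ψ y0| ≤ b := hb y0 (by omega)
      _ = 1 * b := (one_mul b).symm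
      _ ≤ _ := mul_le_mul_of_nonneg_right h2 hb0
  · obtain ⟨y, hy, hmax⟩ := exists_max ψ x r
    refine (hmax y0 hy0).trans ?_
    have hzero : |ψ y| = 0 → |ψ y| ≤ Real.exp (-(ρ * ((L : ℝ) - 64 * l - gg F r) / (l + 1))) * b := by
      intro h
      rw [h]
      positivity
    rcases hstep y (by omega) with ⟨y', hy', h1⟩ | ⟨⟨y', hy', h1⟩, hF⟩
    · by_cases hin : dd x y' ≤ r
      · have h2 := hmax y' hin
        rcases hρ.eq_or_lt with h0 | h0
        · rw [← h0]
          simp only [zero_mul, zero_div, neg_zero, Real.exp_zero, one_mul]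
          exact hb y (by omega)
        · apply hzero
          have h3 : Real.exp (-ρ) < 1 := by
            rw [Real.exp_lt_one_iff]
            linarith
          have h4 : |ψ y| ≤ Real.exp (-ρ) * |ψ y| :=
            h1.trans (mul_le_mul_of_nonneg_left h2 (Real.exp_pos _).le)
          nlinarith [abs_nonneg (ψ y)]
      · have ht := dd_tri x y y'
        have h2 := ih (L + 1 - dd x y') (by omega) (dd x y') rfl (by omega) y' le_rfl
        have h3 := gg_le F r (dd x y') (by omega)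
        have h4 : (gg F (dd x y') : ℝ) ≤ gg F r + (l + 1) := by
          have : gg F (dd x y') ≤ gg F r + (l + 1) := by omega
          exact_mod_cast this
        calc |ψ y| ≤ Real.exp (-ρ) * |ψ y'| := h1
          _ ≤ Real.exp (-ρ) * (Real.exp (-(ρ * ((L : ℝ) - 64 * l - gg F (dd x y')) / (l + 1))) * b) :=
              mul_le_mul_of_nonneg_left h2 (Real.exp_pos _).le
          _ = Real.exp (-ρ + -(ρ * ((L : ℝ) - 64 * l - gg F (dd x y')) / (l + 1))) * b := by
              rw [Real.exp_add]; ring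
          _ ≤ Real.exp (-(ρ * ((L : ℝ) - 64 * l - gg F r) / (l + 1))) * b := by
              apply mul_le_mul_of_nonneg_right _ hb0
              apply Real.exp_le_exp.2
              have h5 : ρ * ((L : ℝ) - 64 * l - gg F r) / (l + 1) ≤
                  ρ * ((L : ℝ) - 64 * l - gg F (dd x y') + (l + 1)) / (l + 1) := by
                apply div_le_div_of_nonneg_right _ hl0.le
                apply mul_le_mul_of_nonneg_left _ hρ
                linarith
              have h6 : ρ * ((L : ℝ) - 64 * l - gg F (dd x y') + (l + 1)) / (l + 1) =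
                  ρ * ((L : ℝ) - 64 * l - gg F (dd x y')) / (l + 1) + ρ := by
                field_simp
              linarith
    · by_cases hin : dd x y' ≤ r
      · have h2 := hmax y' hin
        apply hzero
        have := abs_nonneg (ψ y)
        linarith
      · have ht := dd_tri x y y'
        have h2 := ih (L + 1 - dd x y') (by omega) (dd x y') rfl (by omega) y' le_rfl
        have h3 := gg_le' F r (dd x y') (by omega) (fun t h5 h6 => hF t (by omega) (by omega))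
        have h4 : (gg F (dd x y') : ℝ) ≤ gg F r := by exact_mod_cast h3
        calc |ψ y| ≤ |ψ y'| / 2 := h1
          _ ≤ |ψ y'| := by have := abs_nonneg (ψ y'); linarith
          _ ≤ Real.exp (-(ρ * ((L : ℝ) - 64 * l - gg F (dd x y')) / (l + 1))) * b := h2
          _ ≤ Real.exp (-(ρ * ((L : ℝ) - 64 * l - gg F r) / (l + 1))) * b := by
              apply mul_le_mul_of_nonneg_right _ hb0
              apply Real.exp_le_exp.2
              apply neg_le_neg
              apply div_le_div_of_nonneg_right _ hl0.le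
              apply mul_le_mul_of_nonneg_left _ hρ
              linarith

theorem t_DES : St_DES := by
  intro d hd l L hl hL x V E ρ δ hρ hδ hres bad hbad h4 hR ψ hψ b hb
  obtain ⟨c0, c1, c2, hcov⟩ := cover l L x bad h4
  have hb0 : 0 ≤ b := (abs_nonneg _).trans (hb x (by rw [dd_self]; omega))
  let I : Zd d → Finset ℕ := fun c => Finset.Ico (dd x c - 4 * l) (dd x c + 68 * l)
  have hI : ∀ c, (I c).card ≤ 72 * l := by
    intro c
    simp only [I, Nat.card_Ico]
    omega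
  let F : Finset ℕ := I c0 ∪ I c1 ∪ I c2
  have hFc : F.card ≤ 216 * l := by
    have h1 := Finset.card_union_le (I c0 ∪ I c1) (I c2)
    have h2 := Finset.card_union_le (I c0) (I c1)
    have := hI c0
    have := hI c1
    have := hI c2
    simp only [F]
    omega
  have hstep : ∀ y, dd x y + 64 * l ≤ L →
      (∃ y', dd y y' ≤ l + 1 ∧ |ψ y| ≤ Real.exp (-ρ) * |ψ y'|) ∨
      ((∃ y', dd y y' ≤ 64 * l ∧ |ψ y| ≤ |ψ y'| / 2) ∧
        ∀ t, dd x y ≤ t → t < dd x y + 64 * l → t ∈ F) := by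
    intro y hy
    by_cases hyb : bad y
    · right
      refine ⟨bad_half hd l L hl hL x V E ρ δ hδ hres bad hbad h4 hR ψ hψ y hy hyb, ?_⟩
      intro t ht ht'
      have hmem : ∀ c, dd c y ≤ 4 * l → t ∈ I c := by
        intro c hc
        have t1 := dd_tri x c y
        have t2 := dd_tri x y c
        rw [dd_comm y c] at t2
        simp only [I, Finset.mem_Ico]
        omega
      simp only [F, Finset.mem_union]
      rcases hcov y (by omega) hyb with h | h | h
      · exact Or.inl (Or.inl (hmem _ h))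
      · exact Or.inl (Or.inr (hmem _ h))
      · exact Or.inr (hmem _ h)
    · left
      obtain ⟨y', hy', hmax⟩ := exists_max ψ y (l + 1)
      refine ⟨y', hy', hbad y hyb ψ (fun z hz => hψ z ?_) _ hmax⟩
      have := dd_tri x y z
      omega
  have h1 := radial l L x ρ hρ F ψ b hb hstep hl (L + 1 - 0) 0 rfl (by omega) x
    (by rw [dd_self])
  refine h1.trans (mul_le_mul_of_nonneg_right ?_ hb0)
  apply Real.exp_le_exp.2
  apply neg_le_neg
  have hl0 : (0 : ℝ) < (l : ℝ) + 1 := by positivity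
  apply div_le_div_of_nonneg_right _ hl0.le
  apply mul_le_mul_of_nonneg_left _ hρ
  have h2 : gg F 0 ≤ 216 * l := by
    have : (F.filter (0 ≤ ·)).card ≤ F.card := Finset.card_filter_le _ _
    unfold gg
    omega
  have h3 : (gg F 0 : ℝ) ≤ 216 * l := by exact_mod_cast h2
  have h4 : (0 : ℝ) ≤ l := Nat.cast_nonneg l
  linarith

end Pool.Agent.Helper8.Stp.Des
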