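import Pool.Agent.Helper8.Stp.Stb
import Pool.Agent.Helper28.Tg.Defs3

/-! # One step of the multiscale analysis, for energies in a set -/

set_option autoImplicit false

open MeasureTheory
open scoped BigOperators ENNReal NNReal

namespace Pool.Agent.Helper8.Stp

open Pool.Agent.H4R2.LO (Zd dd bx AL rs Hm Near adj)
open Pool.Agent.H4R2.LO.Em (dd_le_iff le_dd dd_comm dd_tri dd_self mem_bx card_bx)
open Pool.Agent.H5R2.NB (PP)
open Pool.Agent.Helper28.Tg

theorem t_STJ : St_STJ := by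
  intro d hd C κ hκ hκ' m q q' hm hq
  obtain ⟨c0, hc0⟩ : ∃ c0 : ℕ, 8 * ((C : ℝ) + 1) ≤ 2 ^ c0 := by
    obtain ⟨c0, h⟩ := pow_unbounded_of_one_lt (8 * ((C : ℝ) + 1)) one_lt_two
    exact ⟨c0, h.le⟩
  refine ⟨⌈((32 * d * m * (8 + d + q') + 2 * (6 * d + 1) : ℝ)) / κ⌉₊ + 4 * (8 * d + c0 + 1), ?_⟩
  intro ν _ hν J n s hn hs1 hs2 π π' hπ hπ' hπm B hB
  have hd' : (1 : ℝ) ≤ d := by exact_mod_cast hd
  have hm' : (d : ℝ) + 1 ≤ m := by exact_mod_cast hm
  have hm2 : (2 : ℝ) ≤ m := by linarith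
  have hdm : (2 : ℝ) ≤ d * m := by nlinarith
  have hκn : (32 * d * m * (8 + d + q') + 2 * (6 * d + 1) : ℝ) ≤ κ * n := by
    have h1 : ((32 * d * m * (8 + d + q') + 2 * (6 * d + 1) : ℝ)) / κ ≤ n := by
      refine (Nat.le_ceil _).trans ?_
      have : ⌈((32 * d * m * (8 + d + q') + 2 * (6 * d + 1) : ℝ)) / κ⌉₊ ≤ n := by omega
      exact_mod_cast this
    rw [div_le_iff₀ hκ] at h1
    linarith
  have hn2 : 4 * (8 * d + c0 + 1) ≤ n := by omega
  have hn1 : 1 ≤ n := by omega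
  have hn14 : 14 * d ≤ n := by omega
  have hn0 : (0 : ℝ) ≤ n := Nat.cast_nonneg n
  have hsn : s ≤ n := by
    have h1 : (s : ℝ) ≤ n := by
      refine hs1.trans ?_
      have h2 : κ / (16 * d * m) ≤ 1 := by
        rw [div_le_iff₀ (by positivity)]
        nlinarith
      nlinarith
    exact_mod_cast h1
  have hs8 : 8 + d + q' ≤ s := by
    have h1 : ((8 + d + q' : ℕ) : ℝ) ≤ s := by
      refine le_trans ?_ hs2
      have h3 : κ / (32 * d * m) * n = κ * n / (32 * d * m) := by ring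
      rw [h3, le_div_iff₀ (by positivity)]
      push_cast
      have h4 : (0 : ℝ) ≤ 2 * (6 * d + 1) := by positivity
      linarith
    exact_mod_cast h1
  have h2s : 256 * (q' + 1) ≤ 2 ^ s := by
    have h1 : q' + 1 ≤ 2 ^ q' := Nat.lt_two_pow_self
    calc 256 * (q' + 1) ≤ 2 ^ 8 * 2 ^ q' := by omega
      _ = 2 ^ (8 + q') := by rw [pow_add]
      _ ≤ 2 ^ s := Nat.pow_le_pow_right (by norm_num) (by omega)
  obtain ⟨g, hg⟩ : ∃ g : ℕ, g = 2 ^ (n - 1) := ⟨_, rfl⟩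
  have hg2 : 2 * g = 2 ^ n := by
    obtain ⟨k, rfl⟩ : ∃ k, n = k + 1 := ⟨n - 1, by omega⟩
    rw [hg, pow_succ]
    simp
    ring
  have hg0 : 0 < g := by rw [hg]; positivity
  have hgK : g * 2 ^ (s + 1) = 2 ^ (n + s) := by
    rw [pow_succ, pow_add, ← hg2]
    ring
  have hloc : ∀ c V V' E, (∀ y, dd c y ≤ 4 * g → V y = V' y) → (V, E) ∈ B c →
      (V', E) ∈ B c := by
    intro c V V' E h
    refine hB.loc c V V' E fun y hy => h y ?_
    omega
  have hp0 : 0 ≤ pro π n := by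
    unfold pro
    exact Real.rpow_nonneg zero_le_two _
  have hδ : (0 : ℝ) < ((2 : ℝ) ^ (m * n))⁻¹ := by positivity
  refine ⟨New B g (2 ^ (s + 1)) ((2 : ℝ) ^ (m * n))⁻¹, ?_, ?_, ?_, ?_⟩
  · intro x
    exact new_open B hB.op _ _ _ _
  · intro x V V' E h
    refine new_loc B g (2 ^ (s + 1)) (2 * 2 ^ (n + s)) hg0 hloc _ x ?_ V V' E h
    rw [hgK]
    have h1 : 18 * g ≤ 2 ^ (n + s) := by
      rw [pow_add, ← hg2]
      nlinarith
    omega
  · intro x E hE
    refine (new_pr_at ν C hν B hB.op g (2 ^ (s + 1)) hloc (pro π n) hp0 E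
      (fun c => hB.pr c E hE) _ hδ x).trans ?_
    apply ENNReal.ofReal_le_ofReal
    have hdm0 : (0 : ℝ) ≤ 32 * d * m * (8 + d + q') := by positivity
    have h1 := prob_num' d hd κ hκ hκ' m hm c0 ((C : ℝ) + 1) hc0 (by positivity) n s g hg2 hs1
      (by linarith) hn2 π π' hπ hπ' hπm
    push_cast at h1 ⊢
    exact h1
  · intro x V E hVE ψ hψ b hb u hu
    have hb0 : 0 ≤ b := (abs_nonneg _).trans (hb x (by rw [dd_self]; omega))
    have h1 : ∀ m ∈ gi g (2 ^ (s + 1) + 1) x, ∀ m' ∈ gi g (2 ^ (s + 1) + 1) x,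
        8 * g < dd (gc g m) (gc g m') → ¬ ((V, E) ∈ B (gc g m) ∧ (V, E) ∈ B (gc g m')) := by
      intro m hm m' hm' hfar hbad
      apply hVE
      left
      simp only [Set.mem_iUnion, exists_prop]
      exact ⟨m, hm, m', hm', hfar, hbad.1, hbad.2⟩
    have h2 : ∀ c ∈ gi g (2 ^ (s + 1) + 1) x,
        (V, E) ∉ Res (gc g c) (16 * g) ((2 : ℝ) ^ (m * n))⁻¹ := by
      intro c hc hbad
      apply hVE
      right
      simp only [Set.mem_iUnion, exists_prop]
      exact ⟨c, hc, hbad⟩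
    have h3 : ∀ c, ¬ (V, E) ∈ B c → Dc c (2 * g) (dec q n) E V := by
      intro c hc
      rw [hg2]
      exact hB.dc c V E hc
    have h4 := iter V E g (2 ^ (s + 1)) hg0 x (dec q n) _
      ((2 : ℝ) ^ (7 * d) * ((2 : ℝ) ^ n)⁻¹) (by unfold dec; positivity) hδ
      (fun c => (V, E) ∈ B c) h3 h1 h2 (dec_le d q n (by omega)) (eps_one' d m q n hd hq g hg2) ψ
      (fun w hw => hψ w (by rw [← hgK]; exact hw)) b
      (fun w hw => hb w (by rw [← hgK]; omega)) (4 * q') u (by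
        have h5 : 32 * g * (4 * q') * 2 ≤ g * 2 ^ (s + 1) := by
          rw [pow_succ]
          nlinarith
        rw [← hgK] at hu
        omega)
    exact h4.trans (mul_le_mul_of_nonneg_right (eps_pow' d n s q' hn14 hsn) hb0)

end Pool.Agent.Helper8.Stp
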