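import Pool.Agent.Helper8.Stp.Fin
import Pool.Agent.Helper28.Tg.Defs3

/-! # Pure point spectrum in an interval, from a sequence of scales -/

set_option autoImplicit false

open MeasureTheory Filter
open scoped BigOperators ENNReal NNReal

namespace Pool.Agent.Helper8.Stp

open Pool.Agent.H4R2.LO (Zd dd bx AL rs Hm Near adj Hg L2f IsSpec PolyB IsGen)
open Pool.Agent.H4R2.LO.Em (dd_le_iff le_dd dd_comm dd_tri dd_self mem_bx card_bx)
open Pool.Agent.H5R2.NB (PP)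
open Pool.Agent.Helper28.Tg

variable {d : ℕ}

/-- a bad box at scale `2^a` in the annulus up to `16 * 2^b` around `x`, energies in `(u, v)` -/
def Qj (B : Zd d → Set ((Zd d → ℝ) × ℝ)) (x : Zd d) (a b : ℕ) (u v : ℝ) :
    Set ((Zd d → ℝ) × ℝ) :=
  ⋃ m ∈ gi (2 ^ (a - 1)) (32 * 2 ^ (b - a) + 1) x,
    {p | 8 * 2 ^ a ≤ dd x (gc (2 ^ (a - 1)) m) ∧ p ∈ B (gc (2 ^ (a - 1)) m) ∧ u < p.2 ∧ p.2 < v}

theorem qj_open (B : Zd d → Set ((Zd d → ℝ) × ℝ)) (hB : ∀ c, IsOpen (B c)) (x : Zd d)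
    (a b : ℕ) (u v : ℝ) : IsOpen (Qj B x a b u v) := by
  refine isOpen_biUnion fun m _ => ?_
  by_cases h : 8 * 2 ^ a ≤ dd x (gc (2 ^ (a - 1)) m)
  · have : {p : (Zd d → ℝ) × ℝ | 8 * 2 ^ a ≤ dd x (gc (2 ^ (a - 1)) m) ∧
        p ∈ B (gc (2 ^ (a - 1)) m) ∧ u < p.2 ∧ p.2 < v} =
        B (gc (2 ^ (a - 1)) m) ∩ ({p | u < p.2} ∩ {p | p.2 < v}) := by
      ext p
      simp only [h, true_and]
      rfl
    rw [this]
    exact (hB _).inter ((isOpen_lt continuous_const continuous_snd).inter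
      (isOpen_lt continuous_snd continuous_const))
  · have : {p : (Zd d → ℝ) × ℝ | 8 * 2 ^ a ≤ dd x (gc (2 ^ (a - 1)) m) ∧
        p ∈ B (gc (2 ^ (a - 1)) m) ∧ u < p.2 ∧ p.2 < v} = ∅ := by
      ext p
      simp only [h, false_and]
      rfl
    rw [this]
    exact isOpen_empty

theorem qj_loc (B : Zd d → Set ((Zd d → ℝ) × ℝ)) (x : Zd d) (a b : ℕ) (u v : ℝ)
    (hB : ∀ c V V' E, (∀ y, dd c y ≤ 2 * 2 ^ a → V y = V' y) → (V, E) ∈ B c → (V', E) ∈ B c)
    (V : Zd d → ℝ) (s E : ℝ) (h : (V, E) ∈ Qj B x a b u v) :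
    (Function.update V x s, E) ∈ Qj B x a b u v := by
  unfold Qj at h ⊢
  simp only [Set.mem_iUnion, exists_prop] at h ⊢
  obtain ⟨m, h1, h2, h3, h4⟩ := h
  refine ⟨m, h1, h2, hB _ V _ E (fun y hy => ?_) h3, h4⟩
  have h5 : y ≠ x := by
    rintro rfl
    rw [dd_comm] at hy
    have : 0 < 2 ^ a := by positivity
    omega
  rw [Function.update_of_ne h5]

theorem qj_sec (ν : Measure ℝ) [IsProbabilityMeasure ν]
    (B : Zd d → Set ((Zd d → ℝ) × ℝ)) (x : Zd d) (a b : ℕ) (u v : ℝ) (p : ℝ)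
    (hp : ∀ c, ∀ E ∈ Set.Icc u v, (PP d ν) {V | (V, E) ∈ B c} ≤ ENNReal.ofReal p) (E : ℝ) :
    (PP d ν) {V | (V, E) ∈ Qj B x a b u v} ≤
      (Set.Ioo u v).indicator
        (fun _ => ENNReal.ofReal (2 ^ ((b - a + 7) * d) * p)) E := by
  by_cases hE : E ∈ Set.Ioo u v
  · rw [Set.indicator_of_mem hE]
    have h1 : {V : Zd d → ℝ | (V, E) ∈ Qj B x a b u v} ⊆
        ⋃ m ∈ gi (2 ^ (a - 1)) (32 * 2 ^ (b - a) + 1) x,
          {V : Zd d → ℝ | (V, E) ∈ B (gc (2 ^ (a - 1)) m)} := by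
      intro V hV
      unfold Qj at hV
      simp only [Set.mem_ofPred_eq, Set.mem_iUnion, exists_prop] at hV ⊢
      obtain ⟨m, h1, h2, h3, h4⟩ := hV
      exact ⟨m, h1, h3⟩
    refine (measure_mono h1).trans ((measure_biUnion_finset_le _ _).trans ?_)
    refine (Finset.sum_le_sum fun m _ => hp _ E (Set.Ioo_subset_Icc_self hE)).trans ?_
    rw [Finset.sum_const, nsmul_eq_mul, gi_card]
    have h2 : (2 * (32 * 2 ^ (b - a) + 1) + 1) ^ d ≤ 2 ^ ((b - a + 7) * d) := by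
      rw [pow_mul]
      apply Nat.pow_le_pow_left
      have h3 : 1 ≤ 2 ^ (b - a) := Nat.one_le_two_pow
      rw [pow_add]
      omega
    have h4 : (((2 * (32 * 2 ^ (b - a) + 1) + 1) ^ d : ℕ) : ℝ≥0∞) ≤
        ENNReal.ofReal (2 ^ ((b - a + 7) * d)) := by
      have h5 : (((2 ^ ((b - a + 7) * d) : ℕ)) : ℝ≥0∞) = ENNReal.ofReal (2 ^ ((b - a + 7) * d)) := by
        rw [← ENNReal.ofReal_natCast]
        push_cast
        rfl
      rw [← h5]
      exact_mod_cast h2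
    rw [ENNReal.ofReal_mul (by positivity)]
    exact mul_le_mul' h4 le_rfl
  · rw [Set.indicator_of_notMem hE]
    have h1 : {V : Zd d → ℝ | (V, E) ∈ Qj B x a b u v} = ∅ := by
      ext V
      simp only [Set.mem_ofPred_eq, Set.mem_empty_iff_false, iff_false]
      intro hV
      unfold Qj at hV
      simp only [Set.mem_iUnion, exists_prop] at hV
      obtain ⟨m, h1, h2, h3, h4⟩ := hV
      exact hE h4
    rw [h1, measure_empty]

theorem qj_prod (ν : Measure ℝ) [IsProbabilityMeasure ν]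
    (B : Zd d → Set ((Zd d → ℝ) × ℝ)) (hBo : ∀ c, IsOpen (B c)) (x : Zd d) (a b : ℕ) (u v : ℝ)
    (p : ℝ) (hp : ∀ c, ∀ E ∈ Set.Icc u v, (PP d ν) {V | (V, E) ∈ B c} ≤ ENNReal.ofReal p) :
    ((PP d ν).prod volume) (Qj B x a b u v) ≤
      ENNReal.ofReal (v - u) * ENNReal.ofReal (2 ^ ((b - a + 7) * d) * p) := by
  have hm : MeasurableSet (Qj B x a b u v) := (qj_open B hBo x a b u v).measurableSet
  have : IsProbabilityMeasure (PP d ν) := by
    unfold PP
    infer_instance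
  rw [Measure.prod_apply_symm hm]
  refine (lintegral_mono fun E => qj_sec ν B x a b u v p hp E).trans ?_
  rw [lintegral_indicator_const measurableSet_Ioo, Real.volume_Ioo, mul_comm]

theorem dc_mono {x : Zd d} {l : ℕ} {η η' E : ℝ} {V : Zd d → ℝ} (h : η ≤ η')
    (hD : Dc x l η E V) : Dc x l η' E V := by
  intro ψ hψ b hb u hu
  have hb0 : 0 ≤ b := (abs_nonneg _).trans (hb x (by rw [dd_self]; omega))
  exact (hD ψ hψ b hb u hu).trans (mul_le_mul_of_nonneg_right h hb0)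

theorem t_FNJ (hA : St_AVG) (hG : St_GEF) : St_FNJ := by
  intro d hd ν _ C hν u v κ hκ n hn1 hn2 hn3 hn4 q hq B hB
  have hnk : ∀ k, k + 1 ≤ n k := by
    intro k
    induction k with
    | zero => exact hn1 0
    | succ k ih =>
      have := hn2 k
      omega
  obtain ⟨r, hr⟩ : ∃ r : ℝ, r = (2 : ℝ) ^ (-(3 * κ / 4)) := ⟨_, rfl⟩
  have hr0 : 0 < r := by rw [hr]; exact Real.rpow_pos_of_pos two_pos _
  have hr1 : r < 1 := by
    rw [hr]
    apply Real.rpow_lt_one_of_one_lt_of_neg one_lt_two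
    linarith
  have hnum : ∀ k, (2 : ℝ) ^ ((n (k + 1) - n k + 7) * d) * pro κ (n k) ≤ 2 ^ (7 * d) * r ^ k := by
    intro k
    have h1 : (2 : ℝ) ^ ((n (k + 1) - n k + 7) * d) =
        2 ^ (7 * d) * (2 : ℝ) ^ (((n (k + 1) - n k : ℕ) : ℝ) * d) := by
      rw [← Real.rpow_natCast, ← Real.rpow_natCast, ← Real.rpow_add two_pos]
      congr 1
      push_cast
      ring
    rw [h1, mul_assoc]
    apply mul_le_mul_of_nonneg_left _ (by positivity)
    unfold pro
    rw [← Real.rpow_add two_pos, ← Real.rpow_natCast, hr, ← Real.rpow_mul zero_le_two]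
    apply Real.rpow_le_rpow_of_exponent_le one_le_two
    have h2 := hn4 k
    have h3 : (k : ℝ) ≤ n k := by
      have := hnk k
      exact_mod_cast (by omega : k ≤ n k)
    nlinarith
  have hqq : ∀ (x : Zd d) (k : ℕ), ∃ g : (Zd d → ℝ) → ℝ≥0∞, Measurable g ∧
      ∫⁻ V, g V ∂(PP d ν) ≤ 4 * C * ((PP d ν).prod volume) (Qj (B k) x (n k) (n (k + 1)) u v) ∧
      ∀ V m, IsSpec (-1) V (Pi.single x 1) m →
        m {E | (V, E) ∈ Qj (B k) x (n k) (n (k + 1)) u v} ≤ g V := by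
    intro x k
    refine hA d ν C hν x _ (qj_open (B k) (hB k).op x _ _ _ _) ?_
    intro V s E h
    exact qj_loc (B k) x _ _ u v (hB k).loc V s E h
  choose g hgm hgi hgs using hqq
  have hsum : ∀ (x : Zd d), ∀ᵐ V ∂(PP d ν), ∑' k, g x k V < ⊤ := by
    intro x
    apply ae_lt_top
    · exact Measurable.tsum fun k => hgm x k
    · rw [lintegral_tsum fun k => (hgm x k).aemeasurable]
      have h1 : ∀ k, ∫⁻ V, g x k V ∂(PP d ν) ≤
          (4 * C * ENNReal.ofReal (v - u) * ENNReal.ofReal (2 ^ (7 * d))) *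
            ENNReal.ofReal (r ^ k) := by
        intro k
        refine (hgi x k).trans ?_
        have h2 := qj_prod ν (B k) (hB k).op x (n k) (n (k + 1)) u v (pro κ (n k)) (hB k).pr
        have h3 := ENNReal.ofReal_le_ofReal (hnum k)
        rw [ENNReal.ofReal_mul (by positivity : (0 : ℝ) ≤ 2 ^ (7 * d))] at h3
        calc 4 * (C : ℝ≥0∞) * ((PP d ν).prod volume) (Qj (B k) x (n k) (n (k + 1)) u v)
            ≤ 4 * C * (ENNReal.ofReal (v - u) *
                (ENNReal.ofReal (2 ^ (7 * d)) * ENNReal.ofReal (r ^ k))) := by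
              gcongr
              exact h2.trans (mul_le_mul' le_rfl h3)
          _ = _ := by ring
      refine ne_top_of_le_ne_top ?_ (ENNReal.tsum_le_tsum h1)
      rw [ENNReal.tsum_mul_left]
      apply ENNReal.mul_ne_top
      · exact ENNReal.mul_ne_top (ENNReal.mul_ne_top (ENNReal.mul_ne_top (by norm_num)
          ENNReal.coe_ne_top) ENNReal.ofReal_ne_top) ENNReal.ofReal_ne_top
      · rw [← ENNReal.ofReal_tsum_of_nonneg (fun k => by positivity)
          (summable_geometric_of_lt_one hr0.le hr1)]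
        exact ENNReal.ofReal_ne_top
  have hall : ∀ᵐ V ∂(PP d ν), ∀ (x : Zd d), ∑' k, g x k V < ⊤ := by
    rw [ae_all_iff]
    exact hsum
  filter_upwards [hall] with V hV
  intro x m hm
  refine ⟨_, ((Pool.Agent.H4R2.LO.Bgk.cnt d (-1) V).union
    (Set.toFinite {u, v}).countable), ?_⟩
  have hbc : ∀ᵐ E ∂m, ∀ᶠ k in atTop,
      E ∉ {E | (V, E) ∈ Qj (B k) x (n k) (n (k + 1)) u v} := by
    apply ae_eventually_notMem
    exact ne_top_of_le_ne_top (hV x).ne (ENNReal.tsum_le_tsum fun k => hgs x k V m hm)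
  have hL2 : L2f (Pi.single x (1 : ℂ) : Zd d → ℂ) := by
    apply summable_of_ne_finset_zero (s := {x})
    intro y hy
    rw [Finset.mem_singleton] at hy
    rw [Pi.single_eq_of_ne hy]
    simp
  have hgk := Pool.Agent.H4R2.LO.Bgk.bgk d (-1) V (Pi.single x 1) hL2 m hm
  have hfin : ∀ᵐ E ∂m, E ∈ Set.Ioo u v → ∃ φ : Zd d → ℂ, φ ≠ 0 ∧ L2f φ ∧ IsGen (-1) V E φ := by
    filter_upwards [hbc, hgk] with E hE hφ hEI
    obtain ⟨φ, h1, h2, h3⟩ := hφ
    refine ⟨φ, h1, ?_, h3⟩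
    refine hG d hd V E x n hn1 hn2 hn3 ?_ φ h2 h3
    obtain ⟨k0, hk0⟩ := eventually_atTop.1 hE
    refine ⟨k0, fun k hk c hc hc1 hc2 => ?_⟩
    refine dc_mono (η := dec q (n k)) ?_ ?_
    · unfold dec eta
      apply inv_anti₀ (by positivity)
      apply pow_le_pow_right₀ one_le_two
      exact Nat.mul_le_mul_right _ hq
    apply (hB k).dc
    intro hbad
    apply hk0 k hk
    have h2n : 2 * 2 ^ (n k - 1) = 2 ^ n k := by
      have := hn1 k
      rw [← pow_succ']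
      congr 1
      omega
    have hg0 : 0 < 2 ^ (n k - 1) := by positivity
    have hgc : gc (2 ^ (n k - 1)) (gx (2 ^ (n k - 1)) c) = c := by
      funext i
      unfold gc gx
      push_cast
      exact Int.mul_ediv_cancel' (hc i)
    have hmem : gx (2 ^ (n k - 1)) c ∈ gi (2 ^ (n k - 1)) (32 * 2 ^ (n (k + 1) - n k) + 1) x := by
      apply gx_mem _ _ hg0
      refine hc2.trans (le_of_eq ?_)
      have h4 : 2 ^ (n (k + 1)) = 2 ^ (n (k + 1) - n k) * 2 ^ n k := by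
        rw [← pow_add]
        congr 1
        have := hn2 k
        omega
      rw [h4, ← h2n]
      ring
    show (V, E) ∈ Qj (B k) x (n k) (n (k + 1)) u v
    unfold Qj
    simp only [Set.mem_iUnion, exists_prop]
    refine ⟨_, hmem, ?_⟩
    rw [Set.mem_ofPred_eq, hgc]
    exact ⟨hc1, hbad, hEI.1, hEI.2⟩
  rw [ae_iff] at hfin
  refine measure_mono_null ?_ hfin
  intro E hE
  obtain ⟨hE1, hE2⟩ := hE
  rw [Set.mem_union, not_or] at hE2
  obtain ⟨hE3, hE4⟩ := hE2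
  intro himp
  apply hE3
  apply himp
  refine ⟨lt_of_le_of_ne hE1.1 fun h => hE4 (by simp [h]), lt_of_le_of_ne hE1.2 fun h =>
    hE4 (by simp [h])⟩

end Pool.Agent.Helper8.Stp
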